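import Pool.Agent.NH19.BLA.Count

/-! The average of the chromatic polynomials of the unions of two halves. -/

set_option autoImplicit false

namespace Pool.Agent.NH19.BLA

open Polynomial Pool.Agent.H207R2.BL

/-- Cauchy–Schwarz with one more vector -/
theorem quad_cs {A B C : ℝ} (hC : 0 < C) (h : ∀ y : ℝ, 0 ≤ A + 2 * (y * B) + y * y * C) :
    B ^ 2 / C ≤ A := by
  have h1 := h (-(B / C))
  have h2 : A + 2 * (-(B / C) * B) + -(B / C) * -(B / C) * C = A - B ^ 2 / C := by
    field_simp
    ring
  rw [h2] at h1
  linarith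

/-- Gluing with a subgraph of the boundary does not change the graph. -/
def glueSub {V : Type} {n : ℕ} (N : SimpleGraph (V ⊕ Fin n)) (C : SimpleGraph (Fin n))
    (h : ∀ i j, C.Adj i j → N.Adj (Sum.inr i) (Sum.inr j)) : N ≃g glue N (half C) where
  toFun := Sum.map Sum.inl id
  invFun := Sum.map (fun x => x.elim id (fun e => e.elim)) id
  left_inv := by rintro (v | i) <;> rfl
  right_inv := by
    rintro ((v | e) | i)
    · rfl
    · exact e.elim
    · rfl
  map_rel_iff' := by
    have i1 : Function.Injective (Sum.map Sum.inl id : V ⊕ Fin n → (V ⊕ Empty) ⊕ Fin n) :=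
      Sum.map_injective.2 ⟨Sum.inl_injective, Function.injective_id⟩
    intro a b
    constructor
    · rintro (⟨_, a', b', h1, h2, h3⟩ | ⟨_, a', b', h1, h2, h3⟩)
      · have h2' := i1 h2
        have h3' := i1 h3
        rwa [← h2', ← h3']
      · rcases a' with a' | a'
        · exact a'.elim
        · rcases b' with b' | b'
          · exact b'.elim
          · rcases a with a | a
            · exact absurd h2 (by simp)
            · rcases b with b | b
              · exact absurd h3 (by simp)
              · have e1 : a' = a := Sum.inr_injective h2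
                have e2 : b' = b := Sum.inr_injective h3
                rw [← e1, ← e2]
                exact h _ _ h1
    · intro h
      exact Or.inl ⟨i1.ne h.ne, a, b, h, rfl, rfl⟩

theorem chrom_comm {V W : Type} [Finite V] [Finite W] {n : ℕ} (N : SimpleGraph (V ⊕ Fin n))
    (M : SimpleGraph (W ⊕ Fin n)) {p : ℝ[X]} (h : IsChrom (glue N M) p) : IsChrom (glue M N) p := by
  classical
  have : Fintype V := Fintype.ofFinite V
  have : Fintype W := Fintype.ofFinite W
  intro k
  rw [h k, card_glue, card_glue]
  exact Finset.sum_congr rfl (fun c _ => mul_comm _ _)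

theorem pos_B {n : ℕ} (hn : 2 ≤ n) {q : ℝ} (hq : 4 ≤ q) :
    0 < (q - 1) ^ n + (-1) ^ n * (q - 1) := by
  have h1 : q - 1 < (q - 1) ^ n := by
    have : (q - 1) ^ 1 < (q - 1) ^ n := pow_lt_pow_right₀ (by linarith) (by omega)
    rwa [pow_one] at this
  rcases neg_one_pow_eq_or ℝ n with h | h
  · rw [h]; linarith
  · rw [h]; linarith

/-- uniqueness of the chromatic polynomial -/
theorem chrom_unique {T : Type} {G : SimpleGraph T} {p p' : ℝ[X]} (h : IsChrom G p)
    (h' : IsChrom G p') : p = p' := by
  apply Polynomial.eq_of_infinite_eval_eq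
  apply Set.infinite_of_injective_forall_mem (f := fun k : ℕ => (k : ℝ)) Nat.cast_injective
  intro k
  change p.eval (k : ℝ) = p'.eval (k : ℝ)
  rw [h k, h' k]

open Matrix in
/-- products of positive semidefinite forms (Schur) -/
theorem schur_prod {J : Type} [Fintype J] {m : ℕ} (M : Fin m → J → J → ℝ)
    (hs : ∀ s i j, M s i j = M s j i) (hM : ∀ s (a : J → ℝ), 0 ≤ ∑ i, ∑ j, a i * a j * M s i j)
    (a : J → ℝ) : 0 ≤ ∑ i, ∑ j, a i * a j * ∏ s, M s i j := by
  classical
  have conv : ∀ K : J → J → ℝ, (Matrix.of K).PosSemidef ↔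
      (∀ i j, K i j = K j i) ∧ ∀ a : J → ℝ, 0 ≤ ∑ i, ∑ j, a i * a j * K i j := by
    intro K
    rw [Matrix.posSemidef_iff_dotProduct_mulVec]
    have h1 : (Matrix.of K).IsHermitian ↔ ∀ i j, K i j = K j i := by
      constructor
      · intro h i j
        have := h.apply i j
        simpa using this.symm
      · intro h
        ext i j
        simp [h i j]
    have h2 : ∀ a : J → ℝ, star a ⬝ᵥ (Matrix.of K *ᵥ a) = ∑ i, ∑ j, a i * a j * K i j := by
      intro a
      simp only [dotProduct, mulVec, Matrix.of_apply, Pi.star_apply, star_trivial, Finset.mul_sum]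
      exact Finset.sum_congr rfl fun i _ => Finset.sum_congr rfl fun j _ => by ring
    rw [h1]
    simp only [h2]
  have key : (Matrix.of fun i j => ∏ s, M s i j).PosSemidef := by
    induction m with
    | zero =>
      rw [conv]
      refine ⟨fun i j => by simp, fun a => ?_⟩
      have : ∑ i, ∑ j, a i * a j * ∏ s : Fin 0, M s i j = (∑ i, a i) ^ 2 := by
        rw [sq, Finset.sum_mul_sum]
        simp
      rw [this]
      positivity
    | succ m ih =>
      have h1 := ih (fun s => M s.succ) (fun s => hs s.succ) (fun s => hM s.succ)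
      have h2 : (Matrix.of (M 0)).PosSemidef := (conv _).2 ⟨hs 0, hM 0⟩
      have h3 := h2.hadamard h1
      have h4 : (Matrix.of (M 0)) ⊙ (Matrix.of fun i j => ∏ s : Fin m, M s.succ i j) =
          Matrix.of fun i j => ∏ s, M s i j := by
        ext i j
        simp [Matrix.hadamard_apply, Fin.prod_univ_succ]
      rwa [h4] at h3
  exact ((conv _).1 key).2 a

/-- **The average over all pairs of halves**, with arbitrary real weights, for products of values at
several points. -/
theorem avg_halves {n : ℕ} (hn : 2 ≤ n) {J : Type} [Fintype J] (V : J → Type) [∀ i, Finite (V i)]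
    (N : ∀ i, SimpleGraph (V i ⊕ Fin n)) (hN : ∀ i, Crossless (N i))
    (hC : ∀ i a b, (cyc n).Adj a b → (N i).Adj (Sum.inr a) (Sum.inr b))
    (p : J → J → ℝ[X]) (hp : ∀ i j, IsChrom (glue (N i) (N j)) (p i j))
    (r : J → ℝ[X]) (hr : ∀ i, IsChrom (N i) (r i))
    {m : ℕ} (q : Fin m → ℝ) (hq : ∀ s, 4 ≤ q s) (w : J → ℝ) :
    (∑ i, w i * ∏ s, (r i).eval (q s)) ^ 2 / ∏ s, ((q s - 1) ^ n + (-1) ^ n * (q s - 1)) ≤
      ∑ i, ∑ j, w i * w j * ∏ s, (p i j).eval (q s) := by
  classical
  refine quad_cs (Finset.prod_pos fun s _ => pos_B hn (hq s)) (fun y => ?_)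
  let VV : Option J → Type := fun o => o.elim Empty V
  have hfin : ∀ b, Finite (VV b) := by
    rintro (_ | b)
    · exact inferInstanceAs (Finite Empty)
    · exact inferInstanceAs (Finite (V b))
  let NN : ∀ b, SimpleGraph (VV b ⊕ Fin n) := fun b =>
    match b with
    | none => half (cyc n)
    | some i => N i
  have hNN : ∀ b, Crossless (NN b) := by
    rintro (_ | b)
    · exact crossless_half (cyc_nonCross n)
    · exact hN b
  let P : Option J → Option J → ℝ[X] := fun a b =>
    match a, b with
    | none, none => (X - 1) ^ n + (-1) ^ n * (X - 1)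
    | none, some j => r j
    | some i, none => r i
    | some i, some j => p i j
  have h1 : ∀ i, IsChrom (glue (N i) (half (cyc n))) (r i) := fun i =>
    (hr i).of_iso (glueSub (N i) (cyc n) (hC i))
  have hP : ∀ a b, IsChrom (glue (NN a) (NN b)) (P a b) := by
    rintro (_ | a) (_ | b)
    · have h2 := chrom_cyc n hn
      have h3 : cyc n ⊔ cyc n = cyc n := sup_idem _
      rw [← h3] at h2
      exact h2.of_iso (glueHalf (cyc n) (cyc n))
    · exact chrom_comm _ _ (h1 b)
    · exact h1 a
    · exact hp a b
  have hsymm : ∀ a b, P a b = P b a := fun a b =>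
    chrom_unique (hP a b) (chrom_comm _ _ (hP b a))
  have := schur_prod (fun s a b => (P a b).eval (q s)) (fun s a b => by rw [hsymm a b])
    (fun s a => psd VV NN hNN P hP (q s) (hq s) a) (fun o => o.elim y w)
  simp only [Fintype.sum_option, P, Option.elim_none, Option.elim_some] at this
  have e1 : ∀ s, ((X - 1 : ℝ[X]) ^ n + (-1) ^ n * (X - 1)).eval (q s) =
      (q s - 1) ^ n + (-1) ^ n * (q s - 1) := by
    intro s
    simp
  simp only [e1] at this
  rw [Finset.sum_add_distrib] at this
  have e2 : ∑ i, y * w i * ∏ s, (r i).eval (q s) = y * ∑ i, w i * ∏ s, (r i).eval (q s) := by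
    rw [Finset.mul_sum]
    exact Finset.sum_congr rfl fun i _ => by ring
  have e3 : ∑ i, w i * y * ∏ s, (r i).eval (q s) = y * ∑ i, w i * ∏ s, (r i).eval (q s) := by
    rw [Finset.mul_sum]
    exact Finset.sum_congr rfl fun i _ => by ring
  rw [e2, e3] at this
  linarith

/-- The half of a graph without interior vertices is the graph itself. -/
def halfIso {n : ℕ} (G : SimpleGraph (Fin n)) : G ≃g half G where
  toFun := Sum.inr
  invFun := Sum.elim (fun e => e.elim) id
  left_inv := fun _ => rfl
  right_inv := by
    rintro (e | i)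
    · exact e.elim
    · rfl
  map_rel_iff' := by
    intro a b
    exact half_adj G a b

end Pool.Agent.NH19.BLA
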