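import Mathlib

/-! Vectors with pairwise negative inner products in the orthogonal complement of a vector. -/

set_option autoImplicit false

namespace Pool.Agent.NH19.BLA

/-- The matrix `A` is positive semidefinite of rank at most `card D`, and `A none none > 0`. If there
are more than `card D` indices besides `none`, two of them are positively correlated. -/
theorem two_correlated {D J : Type} [Fintype D] [Fintype J] (A : Option J → Option J → ℝ)
    (hs : ∀ a b, A a b = A b a)
    (hpsd : ∀ w : Option J → ℝ, 0 ≤ ∑ a, ∑ b, w a * w b * A a b)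
    (c L : Option J → D → ℝ) (hf : ∀ a b, A a b = ∑ σ, c a σ * L b σ)
    (h0 : 0 < A none none) (hcard : Fintype.card D < Fintype.card J) :
    ∃ i j : J, i ≠ j ∧ A (some i) none * A (some j) none ≤ A none none * A (some i) (some j) := by
  classical
  by_contra hcon
  push Not at hcon
  have hJ : 0 < Fintype.card J := by omega
  obtain ⟨k⟩ : Nonempty J := Fintype.card_pos_iff.1 hJ
  -- the form on the complement
  obtain ⟨B, hB⟩ : ∃ B : J → J → ℝ, ∀ i j, B i j =
      A none none * A (some i) (some j) - A (some i) none * A (some j) none := ⟨_, fun _ _ => rfl⟩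
  have hBneg : ∀ i j, i ≠ j → B i j < 0 := by
    intro i j hij
    rw [hB]
    linarith [hcon i j hij]
  have hBpsd : ∀ w : J → ℝ, 0 ≤ ∑ i, ∑ j, w i * w j * B i j := by
    intro w
    obtain ⟨S, hS⟩ : ∃ S : ℝ, S = ∑ i, w i * A (some i) none := ⟨_, rfl⟩
    have h1 := hpsd (fun o => o.elim (-(S / A none none)) w)
    simp only [Fintype.sum_option, Option.elim_none, Option.elim_some] at h1
    rw [Finset.sum_add_distrib] at h1
    have e1 : ∑ j, -(S / A none none) * w j * A none (some j) = -(S / A none none) * S := by
      rw [hS, Finset.mul_sum]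
      exact Finset.sum_congr rfl fun j _ => by rw [hs none (some j)]; ring
    have e2 : ∑ j, w j * -(S / A none none) * A (some j) none = -(S / A none none) * S := by
      rw [hS, Finset.mul_sum]
      exact Finset.sum_congr rfl fun j _ => by ring
    rw [e1, e2] at h1
    have e3 : ∑ i, ∑ j, w i * w j * B i j =
        A none none * (∑ i, ∑ j, w i * w j * A (some i) (some j)) - S * S := by
      rw [hS, Finset.sum_mul_sum, Finset.mul_sum, ← Finset.sum_sub_distrib]
      refine Finset.sum_congr rfl fun i _ => ?_
      rw [Finset.mul_sum, ← Finset.sum_sub_distrib]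
      refine Finset.sum_congr rfl fun j _ => ?_
      rw [hB]
      ring
    rw [e3]
    have e4 : A none none * (-(S / A none none) * -(S / A none none) * A none none +
        -(S / A none none) * S + (-(S / A none none) * S +
          ∑ i, ∑ j, w i * w j * A (some i) (some j))) =
        A none none * (∑ i, ∑ j, w i * w j * A (some i) (some j)) - S * S := by
      field_simp
      ring
    rw [← e4]
    exact mul_nonneg h0.le h1
  -- a linear relation
  have hdep : ¬ LinearIndependent ℝ
      (fun o : Option {i : J // i ≠ k} => c (o.map Subtype.val)) := by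
    intro hli
    have h1 := hli.fintype_card_le_finrank
    rw [Module.finrank_fintype_fun_eq_card, Fintype.card_option, Fintype.card_subtype_compl,
      Fintype.card_subtype_eq] at h1
    omega
  rw [Fintype.not_linearIndependent_iff] at hdep
  obtain ⟨g, hg, o₀, ho₀⟩ := hdep
  have hrel : ∀ b, ∑ o : Option {i : J // i ≠ k}, g o * A (o.map Subtype.val) b = 0 := by
    intro b
    have h1 : ∀ σ : D, ∑ o : Option {i : J // i ≠ k}, g o * c (o.map Subtype.val) σ = 0 := by
      intro σ
      have := congrFun hg σ
      simpa [Finset.sum_apply] using this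
    calc ∑ o : Option {i : J // i ≠ k}, g o * A (o.map Subtype.val) b
        = ∑ o : Option {i : J // i ≠ k}, ∑ σ, (g o * c (o.map Subtype.val) σ) * L b σ := by
          refine Finset.sum_congr rfl fun o _ => ?_
          rw [hf, Finset.mul_sum]
          exact Finset.sum_congr rfl fun σ _ => by ring
      _ = ∑ σ, (∑ o : Option {i : J // i ≠ k}, g o * c (o.map Subtype.val) σ) * L b σ := by
          rw [Finset.sum_comm]
          exact Finset.sum_congr rfl fun σ _ => by rw [Finset.sum_mul]
      _ = 0 := Finset.sum_eq_zero fun σ _ => by rw [h1 σ, zero_mul]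
  -- the coefficients on `J`
  obtain ⟨f, hfk, hfi⟩ : ∃ f : J → ℝ, f k = 0 ∧ ∀ i : {i : J // i ≠ k}, f i.1 = g (some i) := by
    refine ⟨fun i => if h : i = k then 0 else g (some ⟨i, h⟩), by simp, fun i => ?_⟩
    simp only
    rw [dif_neg i.2]
  have hsumf : ∀ F : J → ℝ, ∑ i, f i * F i = ∑ i : {i : J // i ≠ k}, g (some i) * F i.1 := by
    intro F
    rw [← Fintype.sum_subtype_add_sum_subtype (fun i => i ≠ k) (fun i => f i * F i)]
    have h2 : ∑ i : {i : J // ¬ i ≠ k}, f i.1 * F i.1 = 0 := by
      refine Finset.sum_eq_zero fun i _ => ?_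
      have : i.1 = k := not_not.1 i.2
      rw [this, hfk, zero_mul]
    rw [h2, add_zero]
    exact Finset.sum_congr rfl fun i _ => by rw [hfi]
  have hrel' : ∀ b, g none * A none b + ∑ i, f i * A (some i) b = 0 := by
    intro b
    have h1 := hrel b
    rw [Fintype.sum_option] at h1
    rw [hsumf (fun i => A (some i) b)]
    exact h1
  have hBrel : ∀ j, ∑ i, f i * B i j = 0 := by
    intro j
    have h1 := hrel' none
    have h2 := hrel' (some j)
    have h3 : ∑ i, f i * B i j = A none none * (∑ i, f i * A (some i) (some j)) -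
        (∑ i, f i * A (some i) none) * A (some j) none := by
      rw [Finset.mul_sum, Finset.sum_mul, ← Finset.sum_sub_distrib]
      refine Finset.sum_congr rfl fun i _ => ?_
      rw [hB]
      ring
    rw [h3, hs none (some j)] at *
    linear_combination (A none none) * h2 - (A (some j) none) * h1
  have hfne : ∃ i, f i ≠ 0 := by
    by_contra hall
    push Not at hall
    have h1 := hrel' none
    simp only [hall, zero_mul, Finset.sum_const_zero, add_zero] at h1
    have hgn : g none = 0 := by
      rcases mul_eq_zero.1 h1 with h | h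
      · exact h
      · exact absurd h h0.ne'
    rcases o₀ with _ | i
    · exact ho₀ hgn
    · exact ho₀ (by rw [← hfi]; exact hall _)
  -- both signs occur
  have hk := hBrel k
  have hpos : ∃ i, 0 < f i := by
    by_contra hall
    push Not at hall
    obtain ⟨i, hi⟩ := hfne
    have hik : i ≠ k := fun h => hi (by rw [h, hfk])
    have h1 : 0 < ∑ i, f i * B i k := by
      refine Finset.sum_pos' (fun j _ => ?_) ⟨i, Finset.mem_univ _, ?_⟩
      · rcases eq_or_ne j k with h | h
        · rw [h, hfk, zero_mul]
        · exact mul_nonneg_of_nonpos_of_nonpos (hall j) (hBneg j k h).le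
      · exact mul_pos_of_neg_of_neg (lt_of_le_of_ne (hall i) hi) (hBneg i k hik)
    linarith
  have hneg : ∃ i, f i < 0 := by
    by_contra hall
    push Not at hall
    obtain ⟨i, hi⟩ := hpos
    have hik : i ≠ k := fun h => by rw [h, hfk] at hi; exact lt_irrefl _ hi
    have h1 : ∑ i, f i * B i k < 0 := by
      refine Finset.sum_neg' (fun j _ => ?_) ⟨i, Finset.mem_univ _, ?_⟩
      · rcases eq_or_ne j k with h | h
        · rw [h, hfk, zero_mul]
        · exact mul_nonpos_of_nonneg_of_nonpos (hall j) (hBneg j k h).le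
      · exact mul_neg_of_pos_of_neg hi (hBneg i k hik)
    linarith
  obtain ⟨s, hs0⟩ := hpos
  obtain ⟨t, ht0⟩ := hneg
  have hst : t ≠ s := by
    rintro rfl
    linarith
  -- positive and negative parts
  have h1 := hBpsd (fun i => max (f i) 0)
  have h2 : ∀ j, ∑ i, max (f i) 0 * B i j = ∑ i, max (-f i) 0 * B i j := by
    intro j
    have h3 := hBrel j
    have h4 : ∑ i, f i * B i j = ∑ i, max (f i) 0 * B i j - ∑ i, max (-f i) 0 * B i j := by
      rw [← Finset.sum_sub_distrib]
      refine Finset.sum_congr rfl fun i _ => ?_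
      rw [← sub_mul]
      congr 1
      rcases le_total 0 (f i) with h | h
      · rw [max_eq_left h, max_eq_right (by linarith)]; ring
      · rw [max_eq_right h, max_eq_left (by linarith)]; ring
    linarith
  have h3 : ∑ i, ∑ j, max (f i) 0 * max (f j) 0 * B i j =
      ∑ j, ∑ i, max (-f i) 0 * max (f j) 0 * B i j := by
    rw [Finset.sum_comm]
    refine Finset.sum_congr rfl fun j _ => ?_
    have e1 : ∑ i, max (f i) 0 * max (f j) 0 * B i j = max (f j) 0 * ∑ i, max (f i) 0 * B i j := by
      rw [Finset.mul_sum]
      exact Finset.sum_congr rfl fun i _ => by ring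
    have e2 : ∑ i, max (-f i) 0 * max (f j) 0 * B i j =
        max (f j) 0 * ∑ i, max (-f i) 0 * B i j := by
      rw [Finset.mul_sum]
      exact Finset.sum_congr rfl fun i _ => by ring
    rw [e1, e2, h2]
  rw [h3] at h1
  have hterm : ∀ i j, max (-f i) 0 * max (f j) 0 * B i j ≤ 0 := by
    intro i j
    rcases eq_or_ne i j with h | h
    · subst h
      rcases le_total 0 (f i) with h | h
      · rw [max_eq_right (by linarith : -f i ≤ 0)]; simp
      · rw [max_eq_right h]; simp
    · exact mul_nonpos_of_nonneg_of_nonpos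
        (mul_nonneg (le_max_right _ _) (le_max_right _ _)) (hBneg i j h).le
  have h4 : ∑ j, ∑ i, max (-f i) 0 * max (f j) 0 * B i j < 0 := by
    refine Finset.sum_neg' (fun j _ => Finset.sum_nonpos fun i _ => hterm i j)
      ⟨s, Finset.mem_univ _, ?_⟩
    refine Finset.sum_neg' (fun i _ => hterm i s) ⟨t, Finset.mem_univ _, ?_⟩
    refine mul_neg_of_pos_of_neg (mul_pos ?_ ?_) (hBneg t s hst)
    · exact lt_max_of_lt_left (by linarith)
    · exact lt_max_of_lt_left hs0
  linarith

open Finset in
/-- Turán: a graph on `J` without cliques of size `d + 1` has at most `(1 - 1/d) m²` ordered pairs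
of adjacent vertices. -/
theorem many_pairs {J : Type} [Fintype J] (R : J → J → Prop) (hsymm : ∀ i j, R i j → R j i)
    (d : ℕ) (hd : 0 < d)
    (h : ∀ S : Finset J, S.card = d + 1 → ∃ i ∈ S, ∃ j ∈ S, i ≠ j ∧ R i j)
    (hdiag : ∀ i, R i i) :
    (Fintype.card J) ^ 2 ≤ d * Nat.card {x : J × J // R x.1 x.2} := by
  classical
  let G : SimpleGraph J :=
    { Adj := fun i j => i ≠ j ∧ ¬ R i j
      symm := ⟨fun i j hij => ⟨hij.1.symm, fun h1 => hij.2 (hsymm _ _ h1)⟩⟩
      loopless := ⟨fun i hi => hi.1 rfl⟩ }
  have hG : G.CliqueFree (d + 1) := by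
    intro S hS
    obtain ⟨i, hi, j, hj, hij, hR⟩ := h S hS.card_eq
    exact (hS.isClique (Finset.mem_coe.2 hi) (Finset.mem_coe.2 hj) hij).2 hR
  have h1 : 2 * d * G.edgeFinset.card ≤ (d - 1) * (Fintype.card J) ^ 2 := by
    obtain ⟨H, _, maxH⟩ := SimpleGraph.exists_isTuranMaximal (V := J) hd
    have h2 := maxH.2 hG
    rw [((SimpleGraph.isTuranMaximal_iff_nonempty_iso_turanGraph hd).mp maxH).some.card_edgeFinset_eq]
      at h2
    refine (Nat.mul_le_mul_left (2 * d) h2).trans ?_
    exact SimpleGraph.mul_card_edgeFinset_turanGraph_le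
  have h2 : Nat.card {x : J × J // R x.1 x.2} + 2 * G.edgeFinset.card = (Fintype.card J) ^ 2 := by
    rw [← SimpleGraph.sum_degrees_eq_twice_card_edges]
    have e0 : ∀ v, G.degree v = ∑ w, if R v w then 0 else 1 := by
      intro v
      rw [← SimpleGraph.card_neighborFinset_eq_degree, SimpleGraph.neighborFinset_eq_filter,
        Finset.card_filter]
      refine Finset.sum_congr rfl fun w _ => ?_
      by_cases hR : R v w
      · rw [if_pos hR, if_neg (fun h1 : G.Adj v w => h1.2 hR)]
      · have hne : v ≠ w := fun h1 => hR (h1 ▸ hdiag v)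
        rw [if_neg hR, if_pos (show G.Adj v w from ⟨hne, hR⟩)]
    have e1 : Nat.card {x : J × J // R x.1 x.2} = ∑ v, ∑ w, if R v w then 1 else 0 := by
      rw [Nat.card_eq_fintype_card, Fintype.card_subtype, Finset.card_filter,
        Fintype.sum_prod_type]
    rw [e1, Finset.sum_congr rfl fun v _ => e0 v, ← Finset.sum_add_distrib]
    have e2 : ∀ v : J, (∑ w, if R v w then 1 else 0) + (∑ w, if R v w then 0 else 1) =
        Fintype.card J := by
      intro v
      rw [← Finset.sum_add_distrib]
      have e3 : ∀ w : J, ((if R v w then 1 else 0) + if R v w then 0 else 1) = 1 := by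
        intro w
        split_ifs <;> rfl
      simp [e3]
    rw [Finset.sum_congr rfl fun v _ => e2 v]
    simp [sq]
  have h3 : (Fintype.card J) ^ 2 * d = d * Nat.card {x : J × J // R x.1 x.2} +
      2 * d * G.edgeFinset.card := by
    rw [← h2]; ring
  have h4 : (Fintype.card J) ^ 2 * d = (d - 1) * (Fintype.card J) ^ 2 + (Fintype.card J) ^ 2 := by
    obtain ⟨e, rfl⟩ : ∃ e, d = e + 1 := ⟨d - 1, by omega⟩
    simp only [Nat.add_sub_cancel]
    ring
  omega

end Pool.Agent.NH19.BLA
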