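import Pool.Agent.NH19.BLA.Rank
import Pool.Agent.NH19.BLA.Obtuse

/-! Positively correlated pairs of halves. -/

set_option autoImplicit false

namespace Pool.Agent.NH19.BLA

open Polynomial Pool.Agent.H207R2.BL

/-- The chromatic polynomial of a noncrossing graph is positive at `q ≥ 4`. -/
theorem pos_nc {n : ℕ} (hn : 2 ≤ n) {H : SimpleGraph (Fin n)} (hH : NonCross H) {h : ℝ[X]}
    (hh : IsChrom H h) {q : ℝ} (hq : 4 ≤ q) : 0 < h.eval q := by
  classical
  obtain ⟨T, hHT, hT⟩ : ∃ T, H ≤ T ∧ Maximal NonCross T :=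
    Set.Finite.exists_le_maximal (Set.toFinite {G : SimpleGraph (Fin n) | NonCross G}) hH
  have hTt : IsTri T := ⟨hT.1, fun _ h1 h2 => hT.2 h1 h2⟩
  obtain ⟨t, ht⟩ : ∃ t : ℝ[X], t = X * (X - 1) * (X - 2) ^ (n - 2) := ⟨_, rfl⟩
  have hTc : IsChrom T t := by
    rw [ht]
    exact chrom_tri hn hTt
  have htq : 0 < t.eval q := by
    rw [ht]
    have e1 : ((X * (X - 1) * (X - 2) ^ (n - 2) : ℝ[X])).eval q =
        q * (q - 1) * (q - 2) ^ (n - 2) := by simp
    rw [e1]
    have h1 : 0 < q := by linarith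
    have h2 : 0 < q - 1 := by linarith
    have h3 : 0 < q - 2 := by linarith
    positivity
  let NN : Bool → SimpleGraph (Fin n) := fun b => cond b H T
  let P : Bool → Bool → ℝ[X] := fun a b => cond a (cond b h t) t
  have h1 := psd_nc NN (by rintro (_ | _); exacts [hT.1, hH]) P (by
    rintro (_ | _) (_ | _)
    · change IsChrom (T ⊔ T) t
      rw [sup_idem]
      exact hTc
    · change IsChrom (T ⊔ H) t
      rw [sup_eq_left.2 hHT]
      exact hTc
    · change IsChrom (H ⊔ T) t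
      rw [sup_eq_right.2 hHT]
      exact hTc
    · change IsChrom (H ⊔ H) h
      rw [sup_idem]
      exact hh) q hq (fun b => cond b 1 (-1))
  simp only [Fintype.sum_bool, P, cond_true, cond_false] at h1
  linarith

section

variable {n : ℕ} {H : SimpleGraph (Fin n)} {J : Type} {V : J → Type}

/-- a common boundary graph of crossless halves is noncrossing -/
theorem nonCross_of {V : Type} {N : SimpleGraph (V ⊕ Fin n)} (hN : Crossless N)
    (hC : ∀ a b, H.Adj a b → N.Adj (Sum.inr a) (Sum.inr b)) : NonCross H := by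
  intro i j k l hij hjk hkl h1 h2
  obtain ⟨v, hv1, hv2⟩ := hN i j k l hij hjk hkl (hC _ _ h1).toWalk (hC _ _ h2).toWalk
  simp only [SimpleGraph.Walk.support_cons, SimpleGraph.Walk.support_nil, List.mem_cons,
    List.not_mem_nil, or_false] at hv1 hv2
  have hik : i ≠ j := hij.ne
  have hil : i ≠ l := (hij.trans (hjk.trans hkl)).ne
  have hkj : k ≠ j := hjk.ne'
  have hkl' : k ≠ l := hkl.ne
  rcases hv1 with rfl | rfl <;> rcases hv2 with h | h <;>
    simp_all

/-- the extended family, with the boundary graph itself -/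
def VV (V : J → Type) : Option J → Type := fun o => o.elim Empty V

instance [∀ i, Finite (V i)] (b : Option J) : Finite (VV V b) := by
  cases b with
  | none => exact inferInstanceAs (Finite Empty)
  | some b => exact inferInstanceAs (Finite (V b))

/-- the extended family, with the boundary graph itself -/
def NN (H : SimpleGraph (Fin n)) (N : ∀ i, SimpleGraph (V i ⊕ Fin n)) :
    ∀ b, SimpleGraph (VV V b ⊕ Fin n)
  | none => half H
  | some i => N i

/-- the polynomials of the extended family -/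
def PP (h : ℝ[X]) (r : J → ℝ[X]) (p : J → J → ℝ[X]) : Option J → Option J → ℝ[X]
  | none, none => h
  | none, some j => r j
  | some i, none => r i
  | some i, some j => p i j

theorem chrom_PP [∀ i, Finite (V i)] (N : ∀ i, SimpleGraph (V i ⊕ Fin n))
    (hC : ∀ i a b, H.Adj a b → (N i).Adj (Sum.inr a) (Sum.inr b))
    {h : ℝ[X]} (hh : IsChrom H h) {r : J → ℝ[X]} (hr : ∀ i, IsChrom (N i) (r i))
    {p : J → J → ℝ[X]} (hp : ∀ i j, IsChrom (glue (N i) (N j)) (p i j)) (a b : Option J) :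
    IsChrom (glue (NN H N a) (NN H N b)) (PP h r p a b) := by
  have h1 : ∀ i, IsChrom (glue (N i) (half H)) (r i) := fun i =>
    (hr i).of_iso (glueSub (N i) H (hC i))
  rcases a with _ | a <;> rcases b with _ | b
  · have h3 : H ⊔ H = H := sup_idem _
    rw [← h3] at hh
    exact hh.of_iso (glueHalf H H)
  · exact chrom_comm (N b) (half H) (h1 b)
  · exact h1 a
  · exact hp a b

/-- the two halves are positively correlated at `q` -/
def Corr (h : ℝ[X]) (r : J → ℝ[X]) (p : J → J → ℝ[X]) (q : ℝ) (i j : J) : Prop :=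
  (r i).eval q * (r j).eval q ≤ h.eval q * (p i j).eval q

theorem corr_symm [∀ i, Finite (V i)] (N : ∀ i, SimpleGraph (V i ⊕ Fin n))
    {h : ℝ[X]} {r : J → ℝ[X]}
    {p : J → J → ℝ[X]} (hp : ∀ i j, IsChrom (glue (N i) (N j)) (p i j)) (q : ℝ) (i j : J)
    (hc : Corr h r p q i j) : Corr h r p q j i := by
  unfold Corr at hc ⊢
  have h1 : p j i = p i j := chrom_unique (hp j i) (chrom_comm _ _ (hp i j))
  rw [h1]
  linarith

theorem two_corr (hn : 2 ≤ n) [∀ i, Finite (V i)] (N : ∀ i, SimpleGraph (V i ⊕ Fin n))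
    (hN : ∀ i, Crossless (N i))
    (hC : ∀ i a b, H.Adj a b → (N i).Adj (Sum.inr a) (Sum.inr b))
    {h : ℝ[X]} (hh : IsChrom H h) {r : J → ℝ[X]} (hr : ∀ i, IsChrom (N i) (r i))
    {p : J → J → ℝ[X]} (hp : ∀ i j, IsChrom (glue (N i) (N j)) (p i j))
    {q : ℝ} (hq : 4 ≤ q) (S : Finset J) (hS : Nat.card (Parts H) < S.card) :
    ∃ i ∈ S, ∃ j ∈ S, i ≠ j ∧ Corr h r p q i j := by
  classical
  have hfin : Fintype (Parts H) := Fintype.ofFinite _
  obtain ⟨i₀, -⟩ : S.Nonempty := Finset.card_pos.1 (by omega)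
  have hHn : NonCross H := nonCross_of (hN i₀) (hC i₀)
  let N' : ∀ i : S, SimpleGraph (V i.1 ⊕ Fin n) := fun i => N i.1
  have hP : ∀ a b, IsChrom (glue (NN H N' a) (NN H N' b))
      (PP h (fun i : S => r i.1) (fun i j : S => p i.1 j.1) a b) :=
    chrom_PP N' (fun i => hC i.1) hh (fun i => hr i.1) (fun i j => hp i.1 j.1)
  have hNN : ∀ b, Crossless (NN H N' b) := by
    rintro (_ | b)
    · exact crossless_half hHn
    · exact hN b.1
  have hNC : ∀ b x y, H.Adj x y → (NN H N' b).Adj (Sum.inr x) (Sum.inr y) := by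
    rintro (_ | b) x y hxy
    · exact hxy
    · exact hC b.1 x y hxy
  obtain ⟨c, L, hcL⟩ := factor H (VV (fun i : S => V i.1)) (NN H N') hNN hNC _ hP q
  obtain ⟨i, j, hij, hle⟩ := two_correlated
    (fun a b => (PP h (fun i : S => r i.1) (fun i j : S => p i.1 j.1) a b).eval q)
    (fun a b => by
      rw [chrom_unique (hP a b) (chrom_comm _ _ (hP b a))])
    (fun w => psd (VV (fun i : S => V i.1)) (NN H N') hNN _ hP q hq w)
    c L hcL (pos_nc hn hHn hh hq)
    (by
      rw [Fintype.card_coe, ← Nat.card_eq_fintype_card]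
      exact hS)
  exact ⟨i.1, i.2, j.1, j.2, fun h1 => hij (Subtype.ext h1), hle⟩

theorem corr_diag (hn : 2 ≤ n) [∀ i, Finite (V i)] (N : ∀ i, SimpleGraph (V i ⊕ Fin n))
    (hN : ∀ i, Crossless (N i))
    (hC : ∀ i a b, H.Adj a b → (N i).Adj (Sum.inr a) (Sum.inr b))
    {h : ℝ[X]} (hh : IsChrom H h) {r : J → ℝ[X]} (hr : ∀ i, IsChrom (N i) (r i))
    {p : J → J → ℝ[X]} (hp : ∀ i j, IsChrom (glue (N i) (N j)) (p i j))
    {q : ℝ} (hq : 4 ≤ q) (i : J) : Corr h r p q i i := by
  classical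
  have hHn : NonCross H := nonCross_of (hN i) (hC i)
  let N' : ∀ _ : Unit, SimpleGraph (V i ⊕ Fin n) := fun _ => N i
  have hP : ∀ a b, IsChrom (glue (NN H N' a) (NN H N' b))
      (PP h (fun _ : Unit => r i) (fun _ _ : Unit => p i i) a b) :=
    chrom_PP N' (fun _ => hC i) hh (fun _ => hr i) (fun _ _ => hp i i)
  have hNN : ∀ b, Crossless (NN H N' b) := by
    rintro (_ | b)
    · exact crossless_half hHn
    · exact hN i
  have h1 : ∀ y : ℝ, 0 ≤ (p i i).eval q + 2 * (y * (r i).eval q) + y * y * h.eval q := by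
    intro y
    have := psd (VV (fun _ : Unit => V i)) (NN H N') hNN _ hP q hq (fun o => o.elim y (fun _ => 1))
    simp only [Fintype.sum_option, Option.elim_none, Option.elim_some, Finset.univ_unique,
      Finset.sum_singleton, PP] at this
    linarith
  have h2 := quad_cs (pos_nc hn hHn hh hq) h1
  rw [div_le_iff₀ (pos_nc hn hHn hh hq)] at h2
  unfold Corr
  linarith

theorem card_parts_pos {n : ℕ} {H : SimpleGraph (Fin n)} : 0 < Nat.card (Parts H) := by
  refine Nat.card_pos_iff.2 ⟨⟨⟨⊥, ?_, ?_⟩⟩, inferInstance⟩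
  · intro a b c d hab hbc _ hac _
    exact absurd (hac : a = c) (hab.trans hbc).ne
  · intro i j hij h
    exact hij.ne h

theorem corr_count (hn : 2 ≤ n) [Fintype J] [∀ i, Finite (V i)]
    (N : ∀ i, SimpleGraph (V i ⊕ Fin n))
    (hN : ∀ i, Crossless (N i))
    (hC : ∀ i a b, H.Adj a b → (N i).Adj (Sum.inr a) (Sum.inr b))
    {h : ℝ[X]} (hh : IsChrom H h) {r : J → ℝ[X]} (hr : ∀ i, IsChrom (N i) (r i))
    {p : J → J → ℝ[X]} (hp : ∀ i j, IsChrom (glue (N i) (N j)) (p i j))
    {q : ℝ} (hq : 4 ≤ q) :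
    (Fintype.card J) ^ 2 ≤ Nat.card (Parts H) * Nat.card {x : J × J // Corr h r p q x.1 x.2} :=
  many_pairs (Corr h r p q) (corr_symm N hp q) _ card_parts_pos
    (fun S hS => two_corr hn N hN hC hh hr hp hq S (by omega))
    (corr_diag hn N hN hC hh hr hp hq)

end

/-- An infinite set without `d + 1` pairwise bad elements has an infinite subset of pairwise good
elements. -/
theorem infinite_good {J : Type} (R : J → J → Prop) (hsymm : ∀ i j, R i j → R j i) (d : ℕ) :
    ∀ S : Set J, S.Infinite →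
      (∀ T : Finset J, (T : Set J) ⊆ S → T.card = d + 1 → ∃ i ∈ T, ∃ j ∈ T, i ≠ j ∧ R i j) →
      ∃ S' ⊆ S, S'.Infinite ∧ ∀ i ∈ S', ∀ j ∈ S', i ≠ j → R i j := by
  classical
  induction d with
  | zero =>
    intro S hS h
    obtain ⟨x, hx⟩ := hS.nonempty
    obtain ⟨i, hi, j, hj, hij, -⟩ := h {x} (by simpa using hx) (by simp)
    rw [Finset.mem_singleton] at hi hj
    exact absurd (hi.trans hj.symm) hij
  | succ d ih =>
    intro S hS h
    by_cases hx : ∃ x ∈ S, {y ∈ S | y ≠ x ∧ ¬ R x y}.Infinite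
    · obtain ⟨x, hxS, hx⟩ := hx
      obtain ⟨S', hS', h1, h2⟩ := ih _ hx (by
        intro T hT hcard
        have hxT : x ∉ T := fun hxT => (hT (Finset.mem_coe.2 hxT)).2.1 rfl
        obtain ⟨i, hi, j, hj, hij, hR⟩ := h (insert x T) (by
          intro y hy
          rw [Finset.coe_insert] at hy
          rcases hy with rfl | hy
          · exact hxS
          · exact (hT hy).1) (by rw [Finset.card_insert_of_notMem hxT, hcard])
        rw [Finset.mem_insert] at hi hj
        rcases hi with rfl | hi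
        · rcases hj with rfl | hj
          · exact absurd rfl hij
          · exact absurd hR (hT (Finset.mem_coe.2 hj)).2.2
        · rcases hj with rfl | hj
          · exact absurd (hsymm _ _ hR) (hT (Finset.mem_coe.2 hi)).2.2
          · exact ⟨i, hi, j, hj, hij, hR⟩)
      exact ⟨S', hS'.trans (fun y hy => hy.1), h1, h2⟩
    · push Not at hx
      -- a maximal set of pairwise good elements
      obtain ⟨M, hM⟩ : ∃ M, Maximal (fun M : Set J => M ⊆ S ∧
          ∀ i ∈ M, ∀ j ∈ M, i ≠ j → R i j) M := by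
        refine zorn_subset _ (fun c hc1 hc2 => ⟨⋃₀ c, ⟨?_, ?_⟩, fun s hs => Set.subset_sUnion_of_mem hs⟩)
        · exact Set.sUnion_subset fun s hs => (hc1 hs).1
        · rintro i ⟨s, hs, his⟩ j ⟨t, ht, hjt⟩ hij
          rcases hc2.total hs ht with hst | hst
          · exact (hc1 ht).2 i (hst his) j hjt hij
          · exact (hc1 hs).2 i his j (hst hjt) hij
      refine ⟨M, hM.1.1, fun hfin => ?_, hM.1.2⟩
      have hfin2 : (M ∪ ⋃ x ∈ M, {y ∈ S | y ≠ x ∧ ¬ R x y}).Finite :=
        hfin.union (hfin.biUnion fun x hxM => hx x (hM.1.1 hxM))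
      obtain ⟨y, hyS, hy⟩ := hS.exists_notMem_finite hfin2
      rw [Set.mem_union, not_or] at hy
      have hyR : ∀ x ∈ M, R x y := by
        intro x hxM
        by_contra hR
        exact hy.2 (Set.mem_biUnion hxM ⟨hyS, fun h1 => hy.1 (h1 ▸ hxM), hR⟩)
      have h1 := hM.2 (y := insert y M) ⟨Set.insert_subset hyS hM.1.1, by
        rintro i (rfl | hi) j (rfl | hj) hij
        · exact absurd rfl hij
        · exact hsymm _ _ (hyR j hj)
        · exact hyR i hi
        · exact hM.1.2 i hi j hj hij⟩ (Set.subset_insert y M)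
      exact hy.1 (h1 (Set.mem_insert y M))

section

variable {n : ℕ} {H : SimpleGraph (Fin n)} {J : Type} {V : J → Type}

theorem corr_infinite (hn : 2 ≤ n) [∀ i, Finite (V i)] [Infinite J]
    (N : ∀ i, SimpleGraph (V i ⊕ Fin n)) (hN : ∀ i, Crossless (N i))
    (hC : ∀ i a b, H.Adj a b → (N i).Adj (Sum.inr a) (Sum.inr b))
    {h : ℝ[X]} (hh : IsChrom H h) {r : J → ℝ[X]} (hr : ∀ i, IsChrom (N i) (r i))
    {p : J → J → ℝ[X]} (hp : ∀ i j, IsChrom (glue (N i) (N j)) (p i j))
    (Q : Finset ℝ) (hQ : ∀ q ∈ Q, 4 ≤ q) :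
    ∃ S : Set J, S.Infinite ∧ ∀ q ∈ Q, ∀ i ∈ S, ∀ j ∈ S, Corr h r p q i j := by
  classical
  have key : ∃ S : Set J, S.Infinite ∧ ∀ q ∈ Q, ∀ i ∈ S, ∀ j ∈ S, i ≠ j → Corr h r p q i j := by
    induction Q using Finset.induction_on with
    | empty => exact ⟨Set.univ, Set.infinite_univ, by simp⟩
    | insert q Q hqQ ih =>
      obtain ⟨S, hS, hSQ⟩ := ih (fun q' hq' => hQ q' (Finset.mem_insert_of_mem hq'))
      obtain ⟨S', hS', h1, h2⟩ := infinite_good (Corr h r p q) (corr_symm N hp q)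
        (Nat.card (Parts H)) S hS (fun T _ hT =>
          two_corr hn N hN hC hh hr hp (hQ q (Finset.mem_insert_self _ _)) T (by omega))
      refine ⟨S', h1, fun q' hq' i hi j hj hij => ?_⟩
      rcases Finset.mem_insert.1 hq' with rfl | hq'
      · exact h2 i hi j hj hij
      · exact hSQ q' hq' i (hS' hi) j (hS' hj) hij
  obtain ⟨S, hS, hSQ⟩ := key
  refine ⟨S, hS, fun q hq i hi j hj => ?_⟩
  rcases eq_or_ne i j with rfl | hij
  · exact corr_diag hn N hN hC hh hr hp (hQ q hq) i
  · exact hSQ q hq i hi j hj hij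

end

end Pool.Agent.NH19.BLA
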