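import Pool.Agent.NH19.BLA.Tri

/-! The chromatic polynomial of a triangulation of a polygon. -/

set_option autoImplicit false

namespace Pool.Agent.NH19.BLA

open Polynomial Pool.Agent.H207R2.BL

theorem card_avoid {k : ℕ} (α β : Fin k) (h : α ≠ β) :
    ((Finset.univ.filter fun y : Fin k => y ≠ α ∧ y ≠ β).card : ℝ) = (k : ℝ) - 2 := by
  classical
  have h1 : (Finset.univ.filter fun y : Fin k => y ≠ α ∧ y ≠ β) =
      Finset.univ \ {α, β} := by
    ext y
    simp
  have h2 : ({α, β} : Finset (Fin k)).card = 2 := Finset.card_pair h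
  have h3 := Finset.card_sdiff_add_card_eq_card (Finset.subset_univ ({α, β} : Finset (Fin k)))
  rw [h2, Finset.card_univ, Fintype.card_fin] at h3
  rw [h1]
  have h4 : (((Finset.univ : Finset (Fin k)) \ {α, β}).card : ℝ) + 2 = k := by exact_mod_cast h3
  linarith

theorem proper_insert {n k : ℕ} (T : SimpleGraph (Fin (n + 1))) {j : Fin (n + 1)}
    {p s : Fin n} (hp : T.Adj j (j.succAbove p)) (hs : T.Adj j (j.succAbove s))
    (hj : ∀ v, T.Adj j v → v = j.succAbove p ∨ v = j.succAbove s) (y : Fin k) (g : Fin n → Fin k) :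
    Proper T (j.insertNth (α := fun _ => Fin k) y g) ↔
      Proper (T.comap j.succAbove) g ∧ (y ≠ g p ∧ y ≠ g s) := by
  constructor
  · intro h
    refine ⟨fun a b hab => ?_, ?_, ?_⟩
    · have := h (j.succAbove a) (j.succAbove b) hab
      simpa using this
    · have := h _ _ hp
      simpa using this
    · have := h _ _ hs
      simpa using this
  · rintro ⟨h1, h2, h3⟩ a b hab
    have key : ∀ b, T.Adj j b → y ≠ j.insertNth (α := fun _ => Fin k) y g b := by
      intro b hb
      rcases hj b hb with rfl | rfl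
      · simpa using h2
      · simpa using h3
    by_cases ha : a = j
    · subst ha
      have := key b hab
      simpa using this
    · by_cases hb : b = j
      · subst hb
        have := (key a hab.symm).symm
        simpa using this
      · obtain ⟨a', rfl⟩ := Fin.exists_succAbove_eq ha
        obtain ⟨b', rfl⟩ := Fin.exists_succAbove_eq hb
        have := h1 a' b' hab
        simpa using this

theorem card_ear {n : ℕ} (k : ℕ) (T : SimpleGraph (Fin (n + 1))) {j : Fin (n + 1)}
    {p s : Fin n} (hp : T.Adj j (j.succAbove p)) (hs : T.Adj j (j.succAbove s))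
    (hps : T.Adj (j.succAbove p) (j.succAbove s))
    (hj : ∀ v, T.Adj j v → v = j.succAbove p ∨ v = j.succAbove s) :
    (Nat.card (T.Coloring (Fin k)) : ℝ) =
      Nat.card ((T.comap j.succAbove).Coloring (Fin k)) * ((k : ℝ) - 2) := by
  classical
  rw [card_coloring, card_coloring, ← (Fin.insertNthEquiv (fun _ => Fin k) j).sum_comp,
    Fintype.sum_prod_type, Finset.sum_comm, Finset.sum_mul]
  refine Finset.sum_congr rfl fun g _ => ?_
  have h1 : ∀ y : Fin k, pr T (Fin.insertNthEquiv (fun _ => Fin k) j (y, g)) =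
      pr (T.comap j.succAbove) g * if (y ≠ g p ∧ y ≠ g s) then 1 else 0 := by
    intro y
    have h2 := proper_insert T hp hs hj y g
    have h3 : Fin.insertNthEquiv (fun _ => Fin k) j (y, g) =
      j.insertNth (α := fun _ => Fin k) y g := rfl
    rw [h3]
    unfold pr
    by_cases h4 : Proper (T.comap j.succAbove) g
    · by_cases h5 : y ≠ g p ∧ y ≠ g s
      · rw [if_pos (h2.2 ⟨h4, h5⟩), if_pos h4, if_pos h5, mul_one]
      · rw [if_neg (fun h => h5 (h2.1 h).2), if_neg h5, mul_zero]
    · rw [if_neg (fun h => h4 (h2.1 h).1), if_neg h4, zero_mul]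
  rw [Finset.sum_congr rfl fun y _ => h1 y, ← Finset.mul_sum, Finset.sum_boole]
  by_cases h4 : Proper (T.comap j.succAbove) g
  · rw [card_avoid _ _ (h4 p s hps)]
  · unfold pr
    rw [if_neg h4, zero_mul, zero_mul]

theorem IsTri.card {n : ℕ} (k : ℕ) : ∀ (T : SimpleGraph (Fin (n + 2))), IsTri T →
    (Nat.card (T.Coloring (Fin k)) : ℝ) = k * ((k : ℝ) - 1) * ((k : ℝ) - 2) ^ n := by
  classical
  induction n with
  | zero =>
    intro T hT
    have h01 : T.Adj 0 1 := hT.adj_succ rfl
    rw [card_coloring, pow_zero, mul_one]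
    rw [← (finTwoArrowEquiv (Fin k)).symm.sum_comp, Fintype.sum_prod_type]
    have h1 : ∀ a b : Fin k, pr T ((finTwoArrowEquiv (Fin k)).symm (a, b)) =
        if b ≠ a then 1 else 0 := by
      intro a b
      unfold pr
      have h2 : Proper T ((finTwoArrowEquiv (Fin k)).symm (a, b)) ↔ b ≠ a := by
        constructor
        · intro h
          exact (h 0 1 h01).symm
        · intro h u v huv
          fin_cases u <;> fin_cases v
          · exact absurd rfl huv.ne
          · exact h.symm
          · exact h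
          · exact absurd rfl huv.ne
      by_cases h3 : b ≠ a
      · rw [if_pos (h2.2 h3), if_pos h3]
      · rw [if_neg (fun h => h3 (h2.1 h)), if_neg h3]
    have h2 : ∀ a : Fin k, ∑ b : Fin k, pr T ((finTwoArrowEquiv (Fin k)).symm (a, b)) =
        (k : ℝ) - 1 := by
      intro a
      rw [Finset.sum_congr rfl fun b _ => h1 a b, Finset.sum_boole, Finset.filter_ne',
        Finset.card_erase_of_mem (Finset.mem_univ _), Finset.card_univ, Fintype.card_fin]
      have hk : 1 ≤ k := Nat.one_le_iff_ne_zero.2 (fun h => by subst h; exact a.elim0)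
      push_cast [Nat.cast_sub hk]
      ring
    rw [Finset.sum_congr rfl fun a _ => h2 a, Finset.sum_const, Finset.card_univ,
      Fintype.card_fin, nsmul_eq_mul]
  | succ n ih =>
    intro T hT
    obtain ⟨p, j, s, h1, h2, h3, h4, h5, h6⟩ := hT.ear
    obtain ⟨p', rfl⟩ := Fin.exists_succAbove_eq h4.ne
    obtain ⟨s', rfl⟩ := Fin.exists_succAbove_eq h5.ne'
    rw [card_ear k T h4.symm h5 h3 h6, ih _ (hT.remove h1 h2 h6), pow_succ]
    ring

theorem chrom_tri {n : ℕ} (hn : 2 ≤ n) {T : SimpleGraph (Fin n)} (hT : IsTri T) :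
    IsChrom T (X * (X - 1) * (X - 2) ^ (n - 2)) := by
  obtain ⟨m, rfl⟩ : ∃ m, n = m + 2 := ⟨n - 2, by omega⟩
  intro k
  rw [hT.card k]
  simp

theorem IsTri.cyc_le {n : ℕ} {T : SimpleGraph (Fin n)} (hT : IsTri T) : cyc n ≤ T := by
  have h0 : ∀ x y : Fin n, (x : ℕ) = 0 → (y : ℕ) + 1 = n → x ≠ y → T.Adj x y := by
    intro x y hx hy hxy
    have hlt : x < y := by
      simp only [Fin.lt_def, Fin.ext_iff, ne_eq] at *
      omega
    refine hT.adj hlt (fun u v _ => ⟨?_, ?_⟩)
    · rintro ⟨-, -, h⟩
      have := v.2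
      rw [Fin.lt_def] at h
      omega
    · rintro ⟨h, -, -⟩
      rw [Fin.lt_def] at h
      omega
  rintro a b ⟨hab, h | h | ⟨h, h'⟩ | ⟨h, h'⟩⟩
  · exact hT.adj_succ h
  · exact (hT.adj_succ h).symm
  · exact h0 a b h h' hab
  · exact (h0 b a h h' hab.symm).symm

end Pool.Agent.NH19.BLA
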