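import Pool.Agent.NH19.BLA.NC

/-! The chromatic polynomial of the boundary cycle. -/

set_option autoImplicit false

namespace Pool.Agent.NH19.BLA

open Polynomial Pool.Agent.H207R2.BL

/-- The cycle `0, 1, …, n-1, 0`. -/
def cyc (n : ℕ) : SimpleGraph (Fin n) where
  Adj i j := i ≠ j ∧ ((i : ℕ) + 1 = j ∨ (j : ℕ) + 1 = i ∨ ((i : ℕ) = 0 ∧ (j : ℕ) + 1 = n) ∨
    ((j : ℕ) = 0 ∧ (i : ℕ) + 1 = n))
  symm := ⟨fun i j h => ⟨h.1.symm, by tauto⟩⟩
  loopless := ⟨fun _ h => h.1 rfl⟩

theorem cyc_nonCross (n : ℕ) : NonCross (cyc n) := by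
  intro i j k l hij hjk hkl h _
  obtain ⟨h1, h2⟩ := h
  have := l.2
  simp only [Fin.lt_def] at *
  omega

/-- proper colourings of a path -/
def Ok {k m : ℕ} (f : Fin (m + 1) → Fin k) : Prop := ∀ i : Fin m, f i.castSucc ≠ f i.succ

/-- extension by one value -/
def ex {k m : ℕ} (g : Fin (m + 1) → Fin k) (y : Fin k) : Fin (m + 2) → Fin k :=
  Fin.snoc (α := fun _ => Fin k) g y

theorem ex_castSucc {k m : ℕ} (g : Fin (m + 1) → Fin k) (y : Fin k) (i : Fin (m + 1)) :
    ex g y i.castSucc = g i := by simp [ex]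

theorem ex_last {k m : ℕ} (g : Fin (m + 1) → Fin k) (y : Fin k) :
    ex g y (Fin.last (m + 1)) = y := by simp [ex]

theorem ex_zero {k m : ℕ} (g : Fin (m + 1) → Fin k) (y : Fin k) : ex g y 0 = g 0 := by
  have : (0 : Fin (m + 2)) = (0 : Fin (m + 1)).castSucc := rfl
  rw [this, ex_castSucc]

theorem ex_eta {k m : ℕ} (f : Fin (m + 2) → Fin k) :
    ex (fun i => f i.castSucc) (f (Fin.last (m + 1))) = f := by
  funext i
  refine Fin.lastCases ?_ (fun i => ?_) i
  · rw [ex_last]
  · rw [ex_castSucc]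

theorem ok_ex {k m : ℕ} (g : Fin (m + 1) → Fin k) (y : Fin k) :
    Ok (ex g y) ↔ Ok g ∧ g (Fin.last m) ≠ y := by
  constructor
  · intro h
    refine ⟨fun i => ?_, ?_⟩
    · have := h i.castSucc
      rw [ex_castSucc, Fin.succ_castSucc, ex_castSucc] at this
      exact this
    · have := h (Fin.last m)
      rw [ex_castSucc, Fin.succ_last, ex_last] at this
      exact this
  · rintro ⟨h1, h2⟩ i
    refine Fin.lastCases ?_ (fun i => ?_) i
    · rw [ex_castSucc, Fin.succ_last, ex_last]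
      exact h2
    · rw [ex_castSucc, Fin.succ_castSucc, ex_castSucc]
      exact h1 i

theorem card_ok_succ (k m : ℕ) : Nat.card {f : Fin (m + 2) → Fin k // Ok f} =
    Nat.card {f : Fin (m + 1) → Fin k // Ok f} * (k - 1) := by
  classical
  have e : {f : Fin (m + 2) → Fin k // Ok f} ≃
      (Σ g : {f : Fin (m + 1) → Fin k // Ok f}, {y : Fin k // y ≠ g.1 (Fin.last m)}) :=
    { toFun := fun f => ⟨⟨fun i => f.1 i.castSucc, by
          have := f.2
          rw [← ex_eta f.1, ok_ex] at this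
          exact this.1⟩, ⟨f.1 (Fin.last (m + 1)), by
          have := f.2
          rw [← ex_eta f.1, ok_ex] at this
          exact this.2.symm⟩⟩
      invFun := fun z => ⟨ex z.1.1 z.2.1, (ok_ex _ _).2 ⟨z.1.2, z.2.2.symm⟩⟩
      left_inv := fun f => Subtype.ext (ex_eta f.1)
      right_inv := by
        rintro ⟨⟨g, hg⟩, ⟨y, hy⟩⟩
        have h1 : (fun i : Fin (m + 1) => ex g y i.castSucc) = g := by
          funext i; rw [ex_castSucc]
        simp only [ex_last, Sigma.mk.injEq, Subtype.mk.injEq]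
        refine ⟨h1, ?_⟩
        congr 1
        · funext y
          rw [show ex g _ (Fin.last m).castSucc = g (Fin.last m) from ex_castSucc _ _ _]
        · exact proof_irrel_heq _ _ }
  rw [Nat.card_congr e, Nat.card_eq_fintype_card, Fintype.card_sigma, Nat.card_eq_fintype_card]
  have h : ∀ g : {f : Fin (m + 1) → Fin k // Ok f},
      Fintype.card {y : Fin k // y ≠ g.1 (Fin.last m)} = k - 1 := by
    intro g
    rw [Fintype.card_subtype_compl, Fintype.card_subtype_eq, Fintype.card_fin]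
  rw [Finset.sum_congr rfl (fun g _ => h g), Finset.sum_const, Finset.card_univ, smul_eq_mul]

theorem card_ok (k m : ℕ) : Nat.card {f : Fin (m + 1) → Fin k // Ok f} = k * (k - 1) ^ m := by
  induction m with
  | zero =>
    have : ∀ f : Fin 1 → Fin k, Ok f := fun f i => i.elim0
    rw [Nat.card_congr (Equiv.subtypeUnivEquiv this)]
    simp
  | succ m ih => rw [card_ok_succ, ih, pow_succ, mul_assoc]

theorem card_eq_succ (k m : ℕ) :
    Nat.card {f : Fin (m + 2) → Fin k // Ok f ∧ f 0 = f (Fin.last (m + 1))} =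
      Nat.card {f : Fin (m + 1) → Fin k // Ok f ∧ f 0 ≠ f (Fin.last m)} := by
  refine Nat.card_congr
    { toFun := fun f => ⟨fun i => f.1 i.castSucc, by
        have h1 := f.2.1
        rw [← ex_eta f.1, ok_ex] at h1
        refine ⟨h1.1, ?_⟩
        have h2 := f.2.2
        have h3 := h1.2
        rw [← h2] at h3
        exact h3.symm⟩
      invFun := fun g => ⟨ex g.1 (g.1 0), (ok_ex _ _).2 ⟨g.2.1, g.2.2.symm⟩, by
        rw [ex_zero, ex_last]⟩
      left_inv := fun f => by
        apply Subtype.ext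
        have h2 := f.2.2
        conv_rhs => rw [← ex_eta f.1, ← h2]
        rfl
      right_inv := fun g => by
        apply Subtype.ext
        funext i
        change ex g.1 (g.1 0) i.castSucc = g.1 i
        rw [ex_castSucc] }

/-- closed paths -/
theorem card_ne (k m : ℕ) :
    (Nat.card {f : Fin (m + 1) → Fin k // Ok f ∧ f 0 ≠ f (Fin.last m)} : ℝ) =
      ((k : ℝ) - 1) ^ (m + 1) + (-1) ^ (m + 1) * ((k : ℝ) - 1) := by
  classical
  induction m with
  | zero =>
    have : IsEmpty {f : Fin 1 → Fin k // Ok f ∧ f 0 ≠ f (Fin.last 0)} :=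
      ⟨fun f => f.2.2 rfl⟩
    rw [Nat.card_of_isEmpty]
    simp
  | succ m ih =>
    have h1 : Nat.card {f : Fin (m + 2) → Fin k // Ok f ∧ f 0 ≠ f (Fin.last (m + 1))} +
        Nat.card {f : Fin (m + 2) → Fin k // Ok f ∧ f 0 = f (Fin.last (m + 1))} =
        Nat.card {f : Fin (m + 2) → Fin k // Ok f} := by
      rw [Nat.card_eq_fintype_card, Nat.card_eq_fintype_card, Nat.card_eq_fintype_card,
        Fintype.card_subtype, Fintype.card_subtype, Fintype.card_subtype]
      rw [← Finset.card_filter_add_card_filter_not (s := Finset.univ.filter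
        (fun f : Fin (m + 2) → Fin k => Ok f)) (fun f => f 0 ≠ f (Fin.last (m + 1)))]
      rw [Finset.filter_filter, Finset.filter_filter]
      simp only [ne_eq, not_not]
    rw [card_eq_succ, card_ok] at h1
    rcases Nat.eq_zero_or_pos k with hk | hk
    · subst hk
      have : IsEmpty {f : Fin (m + 1 + 1) → Fin 0 // Ok f ∧ f 0 ≠ f (Fin.last (m + 1))} :=
        ⟨fun f => (f.1 0).elim0⟩
      rw [Nat.card_of_isEmpty]
      have : (-1 : ℝ) ^ (m + 1 + 1) * ((0 : ℕ) - 1) = - ((0 : ℕ) - 1) ^ (m + 1 + 1) := by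
        simp
      rw [this]
      simp
    · have h2 : (Nat.card {f : Fin (m + 2) → Fin k // Ok f ∧ f 0 ≠ f (Fin.last (m + 1))} : ℝ) +
          Nat.card {f : Fin (m + 1) → Fin k // Ok f ∧ f 0 ≠ f (Fin.last m)} =
          k * ((k : ℝ) - 1) ^ (m + 1) := by
        have := congrArg (Nat.cast : ℕ → ℝ) h1
        push_cast [Nat.cast_sub hk] at this
        exact this
      rw [ih] at h2
      change (Nat.card {f : Fin (m + 2) → Fin k // Ok f ∧ f 0 ≠ f (Fin.last (m + 1))} : ℝ) = _
      rw [eq_sub_of_add_eq h2]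
      ring

/-- colourings as proper maps -/
def colEquiv {T κ : Type} (G : SimpleGraph T) : G.Coloring κ ≃ {g : T → κ // Proper G g} where
  toFun := fun c => ⟨fun v => c v, fun _ _ h => c.valid h⟩
  invFun := fun g => SimpleGraph.Coloring.mk g.1 (fun {v w} h => g.2 v w h)
  left_inv := fun c => by ext v; rfl
  right_inv := fun _ => rfl

theorem proper_cyc {k m : ℕ} (hm : 1 ≤ m) (f : Fin (m + 1) → Fin k) :
    Proper (cyc (m + 1)) f ↔ Ok f ∧ f 0 ≠ f (Fin.last m) := by
  constructor
  · intro h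
    refine ⟨fun i => h _ _ ⟨fun e => ?_, Or.inl ?_⟩, h _ _ ⟨fun e => ?_, ?_⟩⟩
    · have := congrArg Fin.val e
      simp at this
    · simp
    · have := congrArg Fin.val e
      simp at this
      omega
    · simp
  · rintro ⟨h1, h2⟩
    have key : ∀ a b : Fin (m + 1), (a : ℕ) + 1 = b → f a ≠ f b := by
      intro a b hab
      have hb := b.2
      have ha : (a : ℕ) < m := by omega
      have := h1 ⟨a, ha⟩
      have e1 : (⟨a, ha⟩ : Fin m).castSucc = a := rfl
      have e2 : (⟨a, ha⟩ : Fin m).succ = b := Fin.ext (by simpa using hab)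
      rwa [e1, e2] at this
    rintro a b ⟨-, h | h | ⟨h, h'⟩ | ⟨h, h'⟩⟩
    · exact key a b h
    · exact (key b a h).symm
    · have e1 : a = 0 := Fin.ext h
      have e2 : b = Fin.last m := Fin.ext (by simpa using h')
      rw [e1, e2]
      exact h2
    · have e1 : b = 0 := Fin.ext h
      have e2 : a = Fin.last m := Fin.ext (by simpa using h')
      rw [e1, e2]
      exact h2.symm

theorem chrom_cyc (n : ℕ) (hn : 2 ≤ n) : IsChrom (cyc n) ((X - 1) ^ n + (-1) ^ n * (X - 1)) := by
  obtain ⟨m, rfl⟩ : ∃ m, n = m + 1 := ⟨n - 1, by omega⟩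
  intro k
  have h1 : ((X - 1 : ℝ[X]) ^ (m + 1) + (-1) ^ (m + 1) * (X - 1)).eval (k : ℝ) =
      ((k : ℝ) - 1) ^ (m + 1) + (-1) ^ (m + 1) * ((k : ℝ) - 1) := by
    simp
  rw [h1, ← card_ne, Nat.card_congr (colEquiv (cyc (m + 1)))]
  congr 1
  exact Nat.card_congr (Equiv.subtypeEquivRight fun f => (proper_cyc (by omega) f).symm)

end Pool.Agent.NH19.BLA
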