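import Pool.Agent.H207R2.BL.Plane

/-! Noncrossing graphs on `0, …, n-1` as crossless halves without interior vertices. -/

set_option autoImplicit false

namespace Pool.Agent.NH19.BLA

open Polynomial Pool.Agent.H207R2.BL

/-- The vertices `0, …, n-1` are in convex position (in this order), and no two edges cross. -/
def NonCross {n : ℕ} (G : SimpleGraph (Fin n)) : Prop :=
  ∀ i j k l : Fin n, i < j → j < k → k < l → G.Adj i k → ¬ G.Adj j l

/-- The graph as a half without interior vertices. -/
def half {n : ℕ} (G : SimpleGraph (Fin n)) : SimpleGraph (Empty ⊕ Fin n) :=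
  SimpleGraph.comap (Sum.elim Empty.elim id) G

theorem half_adj {n : ℕ} (G : SimpleGraph (Fin n)) (i j : Fin n) :
    (half G).Adj (Sum.inr i) (Sum.inr j) ↔ G.Adj i j := Iff.rfl

/-- `v` is between `x` and `y`, as a parity. -/
theorem walk_parity {n : ℕ} {G : SimpleGraph (Fin n)} {u l : Fin n} {x y : Fin n} (p : G.Walk x y)
    (h : ∀ a b, G.Adj a b → a ∈ p.support → b ∈ p.support → ((a < u ↔ b < u) ↔ (a < l ↔ b < l))) :
    ((x < u ↔ y < u) ↔ (x < l ↔ y < l)) := by
  induction p with
  | nil => simp
  | @cons x z y hxz p ih =>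
    have h1 := h x z hxz (by simp) (by simp)
    have h2 := ih fun a b hab ha hb => h a b hab (by simp [ha]) (by simp [hb])
    tauto

theorem same_side {n : ℕ} {G : SimpleGraph (Fin n)} (hG : NonCross G) {a b : Fin n} (hab : G.Adj a b)
    {u l : Fin n} (p : G.Walk u l) (ha : a ∉ p.support) (hb : b ∉ p.support) :
    ((a < u ↔ b < u) ↔ (a < l ↔ b < l)) := by
  induction p with
  | nil => simp
  | @cons u v l huv p ih =>
    rw [SimpleGraph.Walk.support_cons, List.mem_cons, not_or] at ha hb
    have h2 := ih ha.2 hb.2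
    have hav : a ≠ v := fun h => ha.2 (h ▸ p.start_mem_support)
    have hbv : b ≠ v := fun h => hb.2 (h ▸ p.start_mem_support)
    have h1 : ((a < u ↔ b < u) ↔ (a < v ↔ b < v)) := by
      by_contra hcon
      have key : (a < u ∧ u < b ∧ b < v) ∨ (u < a ∧ a < v ∧ v < b) ∨ (b < u ∧ u < a ∧ a < v) ∨
          (u < b ∧ b < v ∧ v < a) ∨ (a < v ∧ v < b ∧ b < u) ∨ (v < a ∧ a < u ∧ u < b) ∨
          (b < v ∧ v < a ∧ a < u) ∨ (v < b ∧ b < u ∧ u < a) := by
        have g1 := ha.1
        have g2 := hb.1
        simp only [Fin.lt_def, Fin.ext_iff, ne_eq] at *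
        omega
      rcases key with ⟨h1, h2, h3⟩ | ⟨h1, h2, h3⟩ | ⟨h1, h2, h3⟩ | ⟨h1, h2, h3⟩ | ⟨h1, h2, h3⟩ |
        ⟨h1, h2, h3⟩ | ⟨h1, h2, h3⟩ | ⟨h1, h2, h3⟩
      · exact hG a u b v h1 h2 h3 hab huv
      · exact hG u a v b h1 h2 h3 huv hab
      · exact hG b u a v h1 h2 h3 hab.symm huv
      · exact hG u b v a h1 h2 h3 huv hab.symm
      · exact hG a v b u h1 h2 h3 hab huv.symm
      · exact hG v a u b h1 h2 h3 huv.symm hab
      · exact hG b v a u h1 h2 h3 hab.symm huv.symm
      · exact hG v b u a h1 h2 h3 huv.symm hab.symm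
    tauto

theorem crossless_half {n : ℕ} {G : SimpleGraph (Fin n)} (hG : NonCross G) : Crossless (half G) := by
  intro i j k l hij hjk hkl p p'
  let φ : half G →g G := ⟨Sum.elim Empty.elim id, fun h => h⟩
  have key : ∃ v, v ∈ (p.map φ).support ∧ v ∈ (p'.map φ).support := by
    by_contra hcon
    push Not at hcon
    have h1 := walk_parity (u := j) (l := l) (p.map φ) (fun a b hab ha hb =>
      same_side hG hab (p'.map φ) (hcon a ha) (hcon b hb))
    have e1 : (φ (Sum.inr i)) = i := rfl
    have e2 : (φ (Sum.inr k)) = k := rfl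
    rw [e1, e2] at h1
    have h2 : i < l := hij.trans (hjk.trans hkl)
    have h3 : ¬ k < j := hjk.not_gt
    tauto
  obtain ⟨v, hv1, hv2⟩ := key
  rw [SimpleGraph.Walk.support_map, List.mem_map] at hv1 hv2
  obtain ⟨a, ha, hav⟩ := hv1
  obtain ⟨b, hb, hbv⟩ := hv2
  have hab : a = b := by
    rcases a with a | a
    · exact a.elim
    · rcases b with b | b
      · exact b.elim
      · have e1 : a = v := hav
        have e2 : b = v := hbv
        rw [e1, e2]
  exact ⟨a, ha, hab ▸ hb⟩

/-- Gluing two noncrossing graphs gives their union. -/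
def glueHalf {n : ℕ} (G H : SimpleGraph (Fin n)) : G ⊔ H ≃g glue (half G) (half H) where
  toFun := Sum.inr
  invFun := Sum.elim (fun x => x.elim Empty.elim Empty.elim) id
  left_inv := fun _ => rfl
  right_inv := by
    rintro ((v | e) | i)
    · exact v.elim
    · exact e.elim
    · rfl
  map_rel_iff' := by
    intro a b
    constructor
    · rintro (⟨_, a', b', h, h1, h2⟩ | ⟨_, a', b', h, h1, h2⟩)
      · rcases a' with a' | a'
        · exact a'.elim
        · rcases b' with b' | b'
          · exact b'.elim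
          · have e1 : a' = a := Sum.inr_injective h1
            have e2 : b' = b := Sum.inr_injective h2
            rw [← e1, ← e2]
            exact Or.inl h
      · rcases a' with a' | a'
        · exact a'.elim
        · rcases b' with b' | b'
          · exact b'.elim
          · have e1 : a' = a := Sum.inr_injective h1
            have e2 : b' = b := Sum.inr_injective h2
            rw [← e1, ← e2]
            exact Or.inr h
    · rintro (h | h)
      · exact Or.inl ⟨fun e => h.ne (Sum.inr_injective e), Sum.inr a, Sum.inr b, h, rfl, rfl⟩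
      · exact Or.inr ⟨fun e => h.ne (Sum.inr_injective e), Sum.inr a, Sum.inr b, h, rfl, rfl⟩

/-- **Positivity of the matrix of the chromatic polynomials of the unions of noncrossing graphs.** -/
theorem psd_nc {n : ℕ} {J : Type} [Fintype J] (N : J → SimpleGraph (Fin n)) (hN : ∀ i, NonCross (N i))
    (P : J → J → ℝ[X]) (hP : ∀ i j, IsChrom (N i ⊔ N j) (P i j)) (q : ℝ) (hq : 4 ≤ q) (a : J → ℝ) :
    0 ≤ ∑ i, ∑ j, a i * a j * (P i j).eval q :=
  psd (fun _ : J => Empty) (fun i => half (N i)) (fun i => crossless_half (hN i)) P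
    (fun i j => (hP i j).of_iso (glueHalf (N i) (N j))) q hq a

end Pool.Agent.NH19.BLA
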