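import Pool.Agent.NH19.BLA.Rank

/-! The number of noncrossing partitions. -/

set_option autoImplicit false

namespace Pool.Agent.NH19.BLA

open Pool.Agent.H207R2.BL

theorem nc_pred_le {n : ℕ} {σ τ : Setoid (Fin n)} (hσ : NonCrossing σ) {i a b : Fin n}
    (ih : ∀ l, l < i → ∀ j, j < l → (σ j l ↔ τ j l))
    (h2 : ∀ x, (∃ j, x < j ∧ τ x j) → ∃ j, x < j ∧ σ x j)
    (ha : a < i) (hai : σ a i) (hamax : ∀ j, j < i → σ j i → j ≤ a)
    (hb : b < i) (hbi : τ b i) (hbmax : ∀ j, j < i → τ j i → j ≤ b) : b ≤ a := by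
  by_contra hab
  push Not at hab
  obtain ⟨l, hbl, hl⟩ := h2 b ⟨i, hb, hbi⟩
  rcases lt_trichotomy l i with hli | rfl | hli
  · have h3 : τ b l := (ih l hli b hbl).1 hl
    have h4 := hbmax l hli (τ.trans (τ.symm h3) hbi)
    exact absurd hbl (not_lt.2 h4)
  · exact absurd hab (not_lt.2 (hamax b hb hl))
  · have h3 := hσ a b i l hab hb hli hai hl
    exact absurd hab (not_lt.2 (hamax b hb (σ.trans (σ.symm h3) hai)))

theorem exists_pred {n : ℕ} {σ : Setoid (Fin n)} {i : Fin n} (h : ∃ j, j < i ∧ σ j i) :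
    ∃ a, a < i ∧ σ a i ∧ ∀ j, j < i → σ j i → j ≤ a := by
  classical
  obtain ⟨j, hj⟩ := h
  obtain ⟨a, ha, hmax⟩ := Finset.exists_max_image
    (Finset.univ.filter (fun j => j < i ∧ σ j i)) id ⟨j, by simpa using hj⟩
  simp only [Finset.mem_filter, Finset.mem_univ, true_and, id] at ha hmax
  exact ⟨a, ha.1, ha.2, fun j h1 h2 => hmax j ⟨h1, h2⟩⟩

/-- A noncrossing partition is determined by the elements which are not the smallest and those which
are not the largest of their block. -/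
theorem nc_ext {n : ℕ} {σ τ : Setoid (Fin n)} (hσ : NonCrossing σ) (hτ : NonCrossing τ)
    (h1 : ∀ i, (∃ j, j < i ∧ σ j i) ↔ (∃ j, j < i ∧ τ j i))
    (h2 : ∀ i, (∃ j, i < j ∧ σ i j) ↔ (∃ j, i < j ∧ τ i j)) : σ = τ := by
  have key : ∀ m : ℕ, ∀ i : Fin n, i.val = m → ∀ j, j < i → (σ j i ↔ τ j i) := by
    intro m
    induction m using Nat.strong_induction_on with
    | _ m ih =>
      intro i hi
      have ih' : ∀ l, l < i → ∀ j, j < l → (σ j l ↔ τ j l) := fun l hl j hj =>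
        ih l.val (by rw [← hi]; exact hl) l rfl j hj
      by_cases h : ∃ j, j < i ∧ σ j i
      · obtain ⟨a, ha, hai, hamax⟩ := exists_pred h
        obtain ⟨b, hb, hbi, hbmax⟩ := exists_pred ((h1 i).1 h)
        have hba := nc_pred_le hσ ih' (fun x => (h2 x).2) ha hai hamax hb hbi hbmax
        have hab := nc_pred_le hτ (fun l hl j hj => (ih' l hl j hj).symm) (fun x => (h2 x).1)
          hb hbi hbmax ha hai hamax
        have e : a = b := le_antisymm hab hba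
        subst e
        intro j hj
        rcases lt_trichotomy j a with hja | rfl | hja
        · constructor
          · intro h3
            exact τ.trans ((ih' a ha j hja).1 (σ.trans h3 (σ.symm hai))) hbi
          · intro h3
            exact σ.trans ((ih' a ha j hja).2 (τ.trans h3 (τ.symm hbi))) hai
        · exact ⟨fun _ => hbi, fun _ => hai⟩
        · constructor
          · intro h3
            exact absurd hja (not_lt.2 (hamax j hj h3))
          · intro h3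
            exact absurd hja (not_lt.2 (hbmax j hj h3))
      · have h' : ¬ ∃ j, j < i ∧ τ j i := fun h3 => h ((h1 i).2 h3)
        intro j hj
        exact ⟨fun h3 => absurd ⟨j, hj, h3⟩ h, fun h3 => absurd ⟨j, hj, h3⟩ h'⟩
  ext i j
  rcases lt_trichotomy i j with h | rfl | h
  · exact key _ j rfl i h
  · exact ⟨fun _ => τ.refl i, fun _ => σ.refl i⟩
  · have := key _ i rfl j h
    exact ⟨fun h3 => τ.symm (this.1 (σ.symm h3)), fun h3 => σ.symm (this.2 (τ.symm h3))⟩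

theorem card_parts_le {n : ℕ} (H : SimpleGraph (Fin n)) : Nat.card (Parts H) ≤ 4 ^ n := by
  classical
  have h1 : Nat.card (Set (Fin n) × Set (Fin n)) = 4 ^ n := by
    rw [Nat.card_prod, Nat.card_eq_fintype_card, Fintype.card_set, Fintype.card_fin, ← mul_pow]
    norm_num
  rw [← h1]
  refine Nat.card_le_card_of_injective
    (fun σ : Parts H => (({i | ∃ j, j < i ∧ σ.1 j i} : Set (Fin n)),
      ({i | ∃ j, i < j ∧ σ.1 i j} : Set (Fin n)))) ?_
  intro σ τ h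
  rw [Prod.mk.injEq] at h
  exact Subtype.ext (nc_ext σ.2.1 τ.2.1 (fun i => Set.ext_iff.1 h.1 i)
    (fun i => Set.ext_iff.1 h.2 i))

theorem card_parts_four {H : SimpleGraph (Fin 4)} (h1 : H.Adj 0 1) (h2 : H.Adj 1 2)
    (h3 : H.Adj 2 3) (h4 : H.Adj 0 3) : Nat.card (Parts H) ≤ 3 := by
  classical
  have h0 : Nat.card (Fin 3) = 3 := by simp
  rw [← h0]
  refine Nat.card_le_card_of_injective
    (fun σ : Parts H => if σ.1 0 2 then (0 : Fin 3) else if σ.1 1 3 then 1 else 2) ?_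
  intro σ τ h
  have key : ∀ σ : Parts H, ¬ (σ.1 0 2 ∧ σ.1 1 3) := fun σ hh =>
    σ.2.2 0 1 h1 (σ.2.1 0 1 2 3 (by decide) (by decide) (by decide) hh.1 hh.2)
  have e02 : σ.1 0 2 ↔ τ.1 0 2 := by
    have k1 := key σ
    have k2 := key τ
    simp only at h
    split_ifs at h <;> simp_all
  have e13 : σ.1 1 3 ↔ τ.1 1 3 := by
    have k1 := key σ
    have k2 := key τ
    simp only at h
    split_ifs at h <;> simp_all
  have hs : ∀ ρ : Parts H, ∀ i j, H.Adj i j → (¬ ρ.1 i j ∧ ¬ ρ.1 j i) := fun ρ i j hij =>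
    ⟨ρ.2.2 i j hij, ρ.2.2 j i hij.symm⟩
  have e20 : σ.1 2 0 ↔ τ.1 2 0 :=
    ⟨fun h => τ.1.symm (e02.1 (σ.1.symm h)), fun h => σ.1.symm (e02.2 (τ.1.symm h))⟩
  have e31 : σ.1 3 1 ↔ τ.1 3 1 :=
    ⟨fun h => τ.1.symm (e13.1 (σ.1.symm h)), fun h => σ.1.symm (e13.2 (τ.1.symm h))⟩
  have n1 := fun ρ : Parts H => hs ρ 0 1 h1
  have n2 := fun ρ : Parts H => hs ρ 1 2 h2
  have n3 := fun ρ : Parts H => hs ρ 2 3 h3
  have n4 := fun ρ : Parts H => hs ρ 0 3 h4
  apply Subtype.ext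
  ext i j
  by_cases hij : i = j
  · subst hij
    exact ⟨fun _ => τ.1.refl i, fun _ => σ.1.refl i⟩
  · fin_cases i <;> fin_cases j <;>
      first
      | exact absurd rfl hij
      | exact e02
      | exact e13
      | exact e20
      | exact e31
      | exact iff_of_false (n1 σ).1 (n1 τ).1
      | exact iff_of_false (n1 σ).2 (n1 τ).2
      | exact iff_of_false (n2 σ).1 (n2 τ).1
      | exact iff_of_false (n2 σ).2 (n2 τ).2
      | exact iff_of_false (n3 σ).1 (n3 τ).1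
      | exact iff_of_false (n3 σ).2 (n3 τ).2
      | exact iff_of_false (n4 σ).1 (n4 τ).1
      | exact iff_of_false (n4 σ).2 (n4 τ).2

theorem card_parts_five {H : SimpleGraph (Fin 5)} (h1 : H.Adj 0 1) (h2 : H.Adj 1 2)
    (h3 : H.Adj 2 3) (h4 : H.Adj 3 4) (h5 : H.Adj 0 4) : Nat.card (Parts H) ≤ 6 := by
  classical
  have h0 : Nat.card (Fin 6) = 6 := by simp
  rw [← h0]
  refine Nat.card_le_card_of_injective
    (fun σ : Parts H => if σ.1 0 2 then (0 : Fin 6) else if σ.1 0 3 then 1 else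
      if σ.1 1 3 then 2 else if σ.1 1 4 then 3 else if σ.1 2 4 then 4 else 5) ?_
  intro σ τ h
  have key : ∀ σ : Parts H, ¬ (σ.1 0 2 ∧ σ.1 0 3) ∧ ¬ (σ.1 0 2 ∧ σ.1 1 3) ∧
      ¬ (σ.1 0 2 ∧ σ.1 1 4) ∧ ¬ (σ.1 0 2 ∧ σ.1 2 4) ∧ ¬ (σ.1 0 3 ∧ σ.1 1 3) ∧
      ¬ (σ.1 0 3 ∧ σ.1 1 4) ∧ ¬ (σ.1 0 3 ∧ σ.1 2 4) ∧ ¬ (σ.1 1 3 ∧ σ.1 1 4) ∧
      ¬ (σ.1 1 3 ∧ σ.1 2 4) ∧ ¬ (σ.1 1 4 ∧ σ.1 2 4) := by
    intro σ
    refine ⟨fun hh => ?_, fun hh => ?_, fun hh => ?_, fun hh => ?_, fun hh => ?_, fun hh => ?_,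
      fun hh => ?_, fun hh => ?_, fun hh => ?_, fun hh => ?_⟩
    · exact σ.2.2 2 3 h3 (σ.1.trans (σ.1.symm hh.1) hh.2)
    · exact σ.2.2 0 1 h1 (σ.2.1 0 1 2 3 (by decide) (by decide) (by decide) hh.1 hh.2)
    · exact σ.2.2 0 1 h1 (σ.2.1 0 1 2 4 (by decide) (by decide) (by decide) hh.1 hh.2)
    · exact σ.2.2 0 4 h5 (σ.1.trans hh.1 hh.2)
    · exact σ.2.2 0 1 h1 (σ.1.trans hh.1 (σ.1.symm hh.2))
    · exact σ.2.2 0 1 h1 (σ.2.1 0 1 3 4 (by decide) (by decide) (by decide) hh.1 hh.2)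
    · exact σ.2.2 3 4 h4 (σ.1.trans (σ.1.symm hh.1)
        (σ.1.trans (σ.2.1 0 2 3 4 (by decide) (by decide) (by decide) hh.1 hh.2) hh.2))
    · exact σ.2.2 3 4 h4 (σ.1.trans (σ.1.symm hh.1) hh.2)
    · exact σ.2.2 1 2 h2 (σ.2.1 1 2 3 4 (by decide) (by decide) (by decide) hh.1 hh.2)
    · exact σ.2.2 1 2 h2 (σ.1.trans hh.1 (σ.1.symm hh.2))
  have k1 := key σ
  have k2 := key τ
  simp only at h
  have e : (σ.1 0 2 ↔ τ.1 0 2) ∧ (σ.1 0 3 ↔ τ.1 0 3) ∧ (σ.1 1 3 ↔ τ.1 1 3) ∧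
      (σ.1 1 4 ↔ τ.1 1 4) ∧ (σ.1 2 4 ↔ τ.1 2 4) := by
    split_ifs at h <;> simp_all
  obtain ⟨e02, e03, e13, e14, e24⟩ := e
  have hsym : ∀ i j, (σ.1 i j ↔ τ.1 i j) → (σ.1 j i ↔ τ.1 j i) := fun i j e =>
    ⟨fun h => τ.1.symm (e.1 (σ.1.symm h)), fun h => σ.1.symm (e.2 (τ.1.symm h))⟩
  have hadj : ∀ i j, H.Adj i j → (σ.1 i j ↔ τ.1 i j) := fun i j hij =>
    iff_of_false (σ.2.2 i j hij) (τ.2.2 i j hij)
  apply Subtype.ext
  ext i j
  by_cases hij : i = j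
  · subst hij
    exact ⟨fun _ => τ.1.refl i, fun _ => σ.1.refl i⟩
  · fin_cases i <;> fin_cases j <;>
      first
      | exact absurd rfl hij
      | exact e02
      | exact e03
      | exact e13
      | exact e14
      | exact e24
      | exact hsym _ _ e02
      | exact hsym _ _ e03
      | exact hsym _ _ e13
      | exact hsym _ _ e14
      | exact hsym _ _ e24
      | exact hadj _ _ h1
      | exact hadj _ _ h2
      | exact hadj _ _ h3
      | exact hadj _ _ h4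
      | exact hadj _ _ h5
      | exact hadj _ _ h1.symm
      | exact hadj _ _ h2.symm
      | exact hadj _ _ h3.symm
      | exact hadj _ _ h4.symm
      | exact hadj _ _ h5.symm

end Pool.Agent.NH19.BLA
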