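import Pool.Agent.NH19.BLA.Avg

/-! The rank of the matrix of the chromatic polynomials of the unions of two halves. -/

set_option autoImplicit false

namespace Pool.Agent.NH19.BLA

open Polynomial Pool.Agent.H207R2.BL

/-- The noncrossing partitions of the boundary vertices without adjacent vertices of `H` in a
block. -/
abbrev Parts {n : ℕ} (H : SimpleGraph (Fin n)) : Type :=
  {σ : Setoid (Fin n) // NonCrossing σ ∧ ∀ i j, H.Adj i j → ¬ σ i j}

instance {n : ℕ} (H : SimpleGraph (Fin n)) : Finite (Parts H) := by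
  have : Finite (Setoid (Fin n)) :=
    Finite.of_injective (fun σ : Setoid (Fin n) => fun i j => σ i j) (fun σ τ h => by
      ext i j
      exact iff_of_eq (congrFun (congrFun h i) j))
  exact Subtype.finite

theorem factor {n : ℕ} (H : SimpleGraph (Fin n)) [Fintype (Parts H)] {J : Type} (V : J → Type)
    [∀ i, Finite (V i)] (N : ∀ i, SimpleGraph (V i ⊕ Fin n)) (hN : ∀ i, Crossless (N i))
    (hH : ∀ i a b, H.Adj a b → (N i).Adj (Sum.inr a) (Sum.inr b))
    (p : J → J → ℝ[X]) (hp : ∀ i j, IsChrom (glue (N i) (N j)) (p i j)) (q : ℝ) :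
    ∃ c L : J → Parts H → ℝ, ∀ i j, (p i j).eval q = ∑ σ, c i σ * L j σ := by
  classical
  have : ∀ i, Fintype (V i) := fun i => Fintype.ofFinite _
  choose m hm using fun (i : J) (A : Finset (Sym2 (V i ⊕ Fin n))) => ext_count (comp A)
  have hinner : ∀ i k (c : Fin n → Fin k), inner (N i) k c =
      ∑ A ∈ (N i).edgeFinset.powerset, (-1 : ℝ) ^ A.card * (k : ℝ) ^ (m i A) *
        ind (Setoid.comap Sum.inr (comp A)) c := by
    intro i k c
    unfold Pool.Agent.H207R2.BL.inner
    simp_rw [pr_expand]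
    rw [Finset.sum_comm]
    refine Finset.sum_congr rfl (fun A _ => ?_)
    rw [← Finset.mul_sum, hm i A k c]
    ring
  let Lp : J → Setoid (Fin n) → ℝ[X] := fun j ρ =>
    ∑ B ∈ (N j).edgeFinset.powerset, C ((-1 : ℝ) ^ B.card) *
      X ^ (m j B + Nat.card (Quotient (ρ ⊔ Setoid.comap Sum.inr (comp B))))
  have hLp : ∀ j ρ (k : ℕ), (Lp j ρ).eval (k : ℝ) =
      ∑ c : Fin n → Fin k, ind ρ c * inner (N j) k c := by
    intro j ρ k
    simp_rw [hinner, Finset.mul_sum]
    rw [Finset.sum_comm]
    simp only [Lp, Polynomial.eval_finsetSum, Polynomial.eval_mul, Polynomial.eval_C,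
      Polynomial.eval_pow, Polynomial.eval_X]
    refine Finset.sum_congr rfl (fun B _ => ?_)
    rw [pow_add, ← sum_ind, Finset.mul_sum, Finset.mul_sum]
    refine Finset.sum_congr rfl (fun c _ => ?_)
    ring
  have hzero : ∀ j ρ, (∃ a b, H.Adj a b ∧ ρ a b) → Lp j ρ = 0 := by
    rintro j ρ ⟨a, b, hab, hρ⟩
    apply Polynomial.eq_of_infinite_eval_eq
    apply Set.infinite_of_injective_forall_mem (f := fun k : ℕ => (k : ℝ)) Nat.cast_injective
    intro k
    change (Lp j ρ).eval (k : ℝ) = (0 : ℝ[X]).eval (k : ℝ)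
    rw [hLp, Polynomial.eval_zero]
    refine Finset.sum_eq_zero (fun c _ => ?_)
    by_cases hc : c a = c b
    · have h0 : inner (N j) k c = 0 := by
        unfold Pool.Agent.H207R2.BL.inner
        refine Finset.sum_eq_zero (fun x _ => ?_)
        unfold pr
        rw [if_neg]
        intro h
        exact h _ _ (hH j a b hab) hc
      rw [h0, mul_zero]
    · rw [ind_not ρ c (fun h => hc (h a b hρ)), zero_mul]
  have hp' : ∀ i j, p i j = ∑ A ∈ (N i).edgeFinset.powerset,
      C ((-1 : ℝ) ^ A.card) * X ^ (m i A) * Lp j (Setoid.comap Sum.inr (comp A)) := by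
    intro i j
    apply Polynomial.eq_of_infinite_eval_eq
    apply Set.infinite_of_injective_forall_mem (f := fun k : ℕ => (k : ℝ)) Nat.cast_injective
    intro k
    change (p i j).eval (k : ℝ) = (∑ A ∈ (N i).edgeFinset.powerset,
      C ((-1 : ℝ) ^ A.card) * X ^ (m i A) * Lp j (Setoid.comap Sum.inr (comp A))).eval (k : ℝ)
    rw [hp i j k, card_glue]
    have h1 : ∀ c : Fin n → Fin k, inner (N i) k c * inner (N j) k c =
        ∑ A ∈ (N i).edgeFinset.powerset, (-1 : ℝ) ^ A.card * (k : ℝ) ^ (m i A) *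
          (ind (Setoid.comap Sum.inr (comp A)) c * inner (N j) k c) := by
      intro c
      rw [hinner i k c, Finset.sum_mul]
      exact Finset.sum_congr rfl (fun A _ => by ring)
    rw [Finset.sum_congr rfl (fun c _ => h1 c), Finset.sum_comm]
    simp only [Polynomial.eval_finsetSum, Polynomial.eval_mul, Polynomial.eval_C,
      Polynomial.eval_pow, Polynomial.eval_X, hLp]
    refine Finset.sum_congr rfl (fun A _ => ?_)
    rw [Finset.mul_sum]
  refine ⟨fun i σ => ∑ A ∈ (N i).edgeFinset.powerset.filter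
      (fun A => Setoid.comap Sum.inr (comp A) = σ.1), (-1 : ℝ) ^ A.card * q ^ (m i A),
    fun j σ => (Lp j σ.1).eval q, fun i j => ?_⟩
  rw [hp' i j]
  simp only [Polynomial.eval_finsetSum, Polynomial.eval_mul, Polynomial.eval_C,
      Polynomial.eval_pow, Polynomial.eval_X]
  simp_rw [Finset.sum_filter, Finset.sum_mul]
  rw [Finset.sum_comm]
  refine Finset.sum_congr rfl (fun A hA => ?_)
  have hnc : NonCrossing (Setoid.comap Sum.inr (comp A)) := by
    refine comap_nc (N i) (hN i) A ?_
    intro e he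
    have h1 := Finset.mem_powerset.1 hA (Finset.mem_coe.1 he)
    simpa using h1
  by_cases hbad : ∃ a b, H.Adj a b ∧ (Setoid.comap Sum.inr (comp A) : Setoid (Fin n)) a b
  · rw [hzero j _ hbad, Polynomial.eval_zero, mul_zero]
    symm
    refine Finset.sum_eq_zero (fun σ _ => ?_)
    rw [if_neg, zero_mul]
    intro h
    obtain ⟨a, b, hab, h2⟩ := hbad
    rw [h] at h2
    exact σ.2.2 a b hab h2
  · push Not at hbad
    rw [Finset.sum_eq_single (⟨Setoid.comap Sum.inr (comp A), hnc, hbad⟩ : Parts H)]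
    · rw [if_pos rfl]
    · intro σ _ hσ
      rw [if_neg, zero_mul]
      intro h
      exact hσ (Subtype.ext h.symm)
    · intro h
      exact absurd (Finset.mem_univ _) h

end Pool.Agent.NH19.BLA
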