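import Pool.Agent.NH19.BLA.Cyc

/-! Triangulations of a polygon and their chromatic polynomials. -/

set_option autoImplicit false

namespace Pool.Agent.NH19.BLA

open Polynomial Pool.Agent.H207R2.BL

/-- A maximal noncrossing graph, i.e. (for `n ≥ 3`) a triangulation of the polygon. -/
def IsTri {n : ℕ} (T : SimpleGraph (Fin n)) : Prop :=
  NonCross T ∧ ∀ T' : SimpleGraph (Fin n), NonCross T' → T ≤ T' → T' ≤ T

theorem nc_sup_edge {n : ℕ} {G : SimpleGraph (Fin n)} (hG : NonCross G) {x y : Fin n} (hxy : x < y)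
    (h : ∀ u v, G.Adj u v → ¬ (x < u ∧ u < y ∧ y < v) ∧ ¬ (u < x ∧ x < v ∧ v < y)) :
    NonCross (G ⊔ SimpleGraph.edge x y) := by
  intro i j k l hij hjk hkl h1 h2
  rw [SimpleGraph.sup_adj, SimpleGraph.edge_adj] at h1 h2
  rcases h1 with h1 | ⟨⟨rfl, rfl⟩ | ⟨rfl, rfl⟩, -⟩
  · rcases h2 with h2 | ⟨⟨rfl, rfl⟩ | ⟨rfl, rfl⟩, -⟩
    · exact hG i j k l hij hjk hkl h1 h2
    · exact (h i k h1).2 ⟨hij, hjk, hkl⟩
    · exact absurd (hjk.trans hkl) hxy.not_gt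
  · rcases h2 with h2 | ⟨⟨rfl, rfl⟩ | ⟨rfl, rfl⟩, -⟩
    · exact (h j l h2).1 ⟨hij, hjk, hkl⟩
    · exact lt_irrefl _ hij
    · exact lt_irrefl _ hjk
  · exact absurd (hij.trans hjk) hxy.not_gt

theorem nc_sup_succ {n : ℕ} {G : SimpleGraph (Fin n)} (hG : NonCross G) {x y : Fin n}
    (hxy : (x : ℕ) + 1 = y) : NonCross (G ⊔ SimpleGraph.edge x y) := by
  refine nc_sup_edge hG (Fin.lt_def.2 (by omega)) (fun u v _ => ?_)
  simp only [Fin.lt_def]
  omega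

theorem IsTri.adj {n : ℕ} {T : SimpleGraph (Fin n)} (hT : IsTri T) {x y : Fin n} (hxy : x < y)
    (h : ∀ u v, T.Adj u v → ¬ (x < u ∧ u < y ∧ y < v) ∧ ¬ (u < x ∧ x < v ∧ v < y)) :
    T.Adj x y := by
  have h1 := hT.2 _ (nc_sup_edge hT.1 hxy h) le_sup_left
  apply h1
  rw [SimpleGraph.sup_adj, SimpleGraph.edge_adj]
  exact Or.inr ⟨Or.inl ⟨rfl, rfl⟩, hxy.ne⟩

theorem IsTri.adj_succ {n : ℕ} {T : SimpleGraph (Fin n)} (hT : IsTri T) {x y : Fin n}
    (hxy : (x : ℕ) + 1 = y) : T.Adj x y := by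
  refine hT.adj (Fin.lt_def.2 (by omega)) (fun u v _ => ?_)
  simp only [Fin.lt_def]
  omega

theorem IsTri.apex {n : ℕ} {T : SimpleGraph (Fin n)} (hT : IsTri T) {a b : Fin n}
    (hab : (a : ℕ) + 1 < b) (hadj : T.Adj a b) : ∃ c, a < c ∧ c < b ∧ T.Adj a c ∧ T.Adj c b := by
  classical
  have hne : (Finset.univ.filter fun c => a < c ∧ c < b ∧ T.Adj a c).Nonempty := by
    refine ⟨⟨a + 1, by omega⟩, Finset.mem_filter.2 ⟨Finset.mem_univ _, ?_, ?_, ?_⟩⟩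
    · exact Fin.lt_def.2 (by simp)
    · exact Fin.lt_def.2 (by simpa using hab)
    · exact hT.adj_succ rfl
  obtain ⟨c, hc, hmax⟩ := Finset.exists_max_image _ (fun c => c) hne
  rw [Finset.mem_filter] at hc
  obtain ⟨-, hac, hcb, hadjc⟩ := hc
  refine ⟨c, hac, hcb, hadjc, hT.adj hcb (fun u v huv => ⟨?_, ?_⟩)⟩
  · rintro ⟨h1, h2, h3⟩
    exact hT.1 a u b v (hac.trans h1) h2 h3 hadj huv
  · rintro ⟨h1, h2, h3⟩
    rcases lt_trichotomy u a with h | h | h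
    · exact hT.1 u a v b h (hac.trans h2) h3 huv hadj
    · subst h
      have := hmax v (Finset.mem_filter.2 ⟨Finset.mem_univ _, h1.trans h2, h3, huv⟩)
      exact absurd h2 this.not_gt
    · exact hT.1 a u c v h h1 h2 hadjc huv

theorem IsTri.ear_aux {n : ℕ} {T : SimpleGraph (Fin n)} (hT : IsTri T) (d : ℕ) :
    ∀ a b : Fin n, (b : ℕ) = a + d → 2 ≤ d → T.Adj a b →
      ∃ p j s : Fin n, (p : ℕ) + 1 = j ∧ (j : ℕ) + 1 = s ∧ T.Adj p s := by
  induction d using Nat.strong_induction_on with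
  | _ d ih =>
    intro a b hab hd hadj
    obtain ⟨c, hac, hcb, h1, h2⟩ := hT.apex (by omega) hadj
    rw [Fin.lt_def] at hac hcb
    rcases Nat.lt_or_ge ((a : ℕ) + 1) c with h | h
    · exact ih (c - a) (by omega) a c (by omega) (by omega) h1
    · rcases Nat.lt_or_ge ((c : ℕ) + 1) b with h' | h'
      · exact ih (b - c) (by omega) c b (by omega) (by omega) h2
      · exact ⟨a, c, b, by omega, by omega, hadj⟩

theorem IsTri.ear {n : ℕ} {T : SimpleGraph (Fin (n + 3))} (hT : IsTri T) :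
    ∃ p j s : Fin (n + 3), (p : ℕ) + 1 = j ∧ (j : ℕ) + 1 = s ∧ T.Adj p s ∧ T.Adj p j ∧ T.Adj j s ∧
      ∀ v, T.Adj j v → v = p ∨ v = s := by
  have h0 : T.Adj 0 (Fin.last (n + 2)) := by
    refine hT.adj (Fin.lt_def.2 (by simp)) (fun u v _ => ⟨?_, ?_⟩)
    · rintro ⟨-, -, h⟩
      exact absurd v.le_last h.not_ge
    · rintro ⟨h, -, -⟩
      exact absurd (Fin.zero_le u) h.not_ge
  obtain ⟨p, j, s, h1, h2, h3⟩ := hT.ear_aux (n + 2) 0 (Fin.last (n + 2)) (by simp) (by omega) h0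
  refine ⟨p, j, s, h1, h2, h3, hT.adj_succ h1, hT.adj_succ h2, fun v hv => ?_⟩
  by_contra hcon
  push Not at hcon
  have hvj : v ≠ j := hv.ne'
  rcases lt_trichotomy v j with h | h | h
  · have h4 : v < p := by
      have := hcon.1
      simp only [Fin.lt_def, Fin.ext_iff, ne_eq] at *
      omega
    exact hT.1 v p j s h4 (Fin.lt_def.2 (by omega)) (Fin.lt_def.2 (by omega)) hv.symm h3
  · exact hvj h
  · have h4 : s < v := by
      have := hcon.2
      simp only [Fin.lt_def, Fin.ext_iff, ne_eq] at *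
      omega
    exact hT.1 p j s v (Fin.lt_def.2 (by omega)) (Fin.lt_def.2 (by omega)) h4 h3 hv

/-- removal of an ear -/
theorem IsTri.remove {n : ℕ} {T : SimpleGraph (Fin (n + 1))} (hT : IsTri T)
    {p j s : Fin (n + 1)} (h1 : (p : ℕ) + 1 = j) (h2 : (j : ℕ) + 1 = s)
    (hj : ∀ v, T.Adj j v → v = p ∨ v = s) : IsTri (T.comap j.succAbove) := by
  have hmono : ∀ a b : Fin n, a < b ↔ j.succAbove a < j.succAbove b := fun a b =>
    (Fin.strictMono_succAbove j).lt_iff_lt.symm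
  refine ⟨fun a b c d hab hbc hcd h h' => hT.1 _ _ _ _ ((hmono _ _).1 hab) ((hmono _ _).1 hbc)
    ((hmono _ _).1 hcd) h h', fun U hU hle => ?_⟩
  let e : Fin n ↪ Fin (n + 1) := ⟨j.succAbove, Fin.succAbove_right_injective⟩
  have hW0 : NonCross (U.map e) := by
    rintro a b c d hab hbc hcd ⟨-, a', c', h, rfl, rfl⟩ ⟨-, b', d', h', rfl, rfl⟩
    exact hU a' b' c' d' ((hmono _ _).2 hab) ((hmono _ _).2 hbc) ((hmono _ _).2 hcd) h h'
  have hW := nc_sup_succ (nc_sup_succ hW0 h1) h2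
  have hTW : T ≤ U.map e ⊔ SimpleGraph.edge p j ⊔ SimpleGraph.edge j s := by
    intro u v huv
    rw [SimpleGraph.sup_adj, SimpleGraph.sup_adj, SimpleGraph.edge_adj, SimpleGraph.edge_adj]
    by_cases hu : u = j
    · subst hu
      rcases hj v huv with rfl | rfl
      · exact Or.inl (Or.inr ⟨Or.inr ⟨rfl, rfl⟩, huv.ne⟩)
      · exact Or.inr ⟨Or.inl ⟨rfl, rfl⟩, huv.ne⟩
    · by_cases hv : v = j
      · subst hv
        rcases hj u huv.symm with rfl | rfl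
        · exact Or.inl (Or.inr ⟨Or.inl ⟨rfl, rfl⟩, huv.ne⟩)
        · exact Or.inr ⟨Or.inr ⟨rfl, rfl⟩, huv.ne⟩
      · obtain ⟨u', rfl⟩ := Fin.exists_succAbove_eq hu
        obtain ⟨v', rfl⟩ := Fin.exists_succAbove_eq hv
        exact Or.inl (Or.inl ⟨huv.ne, u', v', hle huv, rfl, rfl⟩)
  have hWT := hT.2 _ hW hTW
  intro u v huv
  apply hWT
  exact Or.inl (Or.inl ⟨fun h => huv.ne (Fin.succAbove_right_injective h), u, v, huv, rfl, rfl⟩)

end Pool.Agent.NH19.BLA
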