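import Pool.Agent.NH19.BLA.Corr

/-! Weighted version of the count of the positively correlated pairs. -/

set_option autoImplicit false

namespace Pool.Agent.NH19.BLA

open Polynomial Pool.Agent.H207R2.BL Filter Topology

open Classical in
theorem many_pairs_nat {J : Type} (R : J → J → Prop) (hsymm : ∀ i j, R i j → R j i)
    (d : ℕ) (hd : 0 < d)
    (h : ∀ S : Finset J, S.card = d + 1 → ∃ i ∈ S, ∃ j ∈ S, i ≠ j ∧ R i j)
    (hdiag : ∀ i, R i i) (S : Finset J) (k : J → ℕ) :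
    (∑ i ∈ S, k i) ^ 2 ≤ d * ∑ i ∈ S, ∑ j ∈ S, if R i j then k i * k j else 0 := by
  let T : Type := Σ i : S, Fin (k i.1)
  have h1 := many_pairs (J := T) (fun x y => R x.1.1 y.1.1) (fun x y => hsymm _ _) d hd
    (by
      intro U hU
      by_cases hinj : ∃ x ∈ U, ∃ y ∈ U, x ≠ y ∧ x.1 = y.1
      · obtain ⟨x, hx, y, hy, hxy, he⟩ := hinj
        exact ⟨x, hx, y, hy, hxy, by rw [he]; exact hdiag _⟩
      · push Not at hinj
        have hcard : (U.image (fun x : T => x.1.1)).card = d + 1 := by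
          rw [Finset.card_image_of_injOn, hU]
          intro x hx y hy hxy
          by_contra hne
          exact hinj x hx y hy hne (Subtype.ext hxy)
        obtain ⟨i, hi, j, hj, hij, hR⟩ := h _ hcard
        obtain ⟨x, hx, rfl⟩ := Finset.mem_image.1 hi
        obtain ⟨y, hy, rfl⟩ := Finset.mem_image.1 hj
        exact ⟨x, hx, y, hy, fun e => hij (by rw [e]), hR⟩)
    (fun x => hdiag _)
  have e1 : Fintype.card T = ∑ i ∈ S, k i := by
    rw [Fintype.card_sigma]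
    simp only [Fintype.card_fin]
    exact Finset.sum_coe_sort S k
  have e2 : Nat.card {x : T × T // R x.1.1.1 x.2.1.1} =
      ∑ i ∈ S, ∑ j ∈ S, if R i j then k i * k j else 0 := by
    rw [Nat.card_eq_fintype_card, Fintype.card_subtype, Finset.card_filter,
      Fintype.sum_prod_type, Fintype.sum_sigma]
    rw [← Finset.sum_coe_sort S (fun i => ∑ j ∈ S, if R i j then k i * k j else 0)]
    refine Finset.sum_congr rfl fun i _ => ?_
    have e3 : ∀ a : Fin (k i.1), (∑ y : T, if R (⟨i, a⟩ : T).1.1 y.1.1 then 1 else 0) =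
        ∑ j ∈ S, if R i.1 j then k j else 0 := by
      intro a
      rw [Fintype.sum_sigma]
      rw [← Finset.sum_coe_sort S (fun j => if R i.1 j then k j else 0)]
      refine Finset.sum_congr rfl fun j _ => ?_
      by_cases hR : R i.1 j.1 <;> simp [hR]
    simp only at e3 ⊢
    rw [Finset.sum_congr rfl fun a _ => e3 a, Finset.sum_const, Finset.card_univ,
      Fintype.card_fin, smul_eq_mul, Finset.mul_sum]
    refine Finset.sum_congr rfl fun j _ => ?_
    by_cases hR : R i.1 j <;> simp [hR]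
  rw [e1, e2] at h1
  exact h1

open Classical in
theorem many_pairs_real {J : Type} (R : J → J → Prop) (hsymm : ∀ i j, R i j → R j i)
    (d : ℕ) (hd : 0 < d)
    (h : ∀ S : Finset J, S.card = d + 1 → ∃ i ∈ S, ∃ j ∈ S, i ≠ j ∧ R i j)
    (hdiag : ∀ i, R i i) (S : Finset J) (w : J → ℝ) (hw : ∀ i, 0 ≤ w i) :
    (∑ i ∈ S, w i) ^ 2 ≤ d * ∑ i ∈ S, ∑ j ∈ S, if R i j then w i * w j else 0 := by
  have key : ∀ i, Tendsto (fun x : ℝ => (⌊w i * x⌋₊ : ℝ) / x) atTop (𝓝 (w i)) := fun i =>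
    tendsto_nat_floor_mul_div_atTop (hw i)
  have h1 : Tendsto (fun x : ℝ => (∑ i ∈ S, (⌊w i * x⌋₊ : ℝ) / x) ^ 2) atTop
      (𝓝 ((∑ i ∈ S, w i) ^ 2)) := (tendsto_finsetSum S fun i _ => key i).pow 2
  have h2 : Tendsto (fun x : ℝ => (d : ℝ) * ∑ i ∈ S, ∑ j ∈ S,
      if R i j then ((⌊w i * x⌋₊ : ℝ) / x) * ((⌊w j * x⌋₊ : ℝ) / x) else 0) atTop
      (𝓝 (d * ∑ i ∈ S, ∑ j ∈ S, if R i j then w i * w j else 0)) := by
    refine Tendsto.const_mul _ (tendsto_finsetSum S fun i _ => tendsto_finsetSum S fun j _ => ?_)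
    split_ifs
    · exact (key i).mul (key j)
    · exact tendsto_const_nhds
  refine le_of_tendsto_of_tendsto h1 h2 ?_
  filter_upwards [eventually_gt_atTop 0] with x hx
  have h3 := many_pairs_nat R hsymm d hd h hdiag S (fun i => ⌊w i * x⌋₊)
  have h4 : (∑ i ∈ S, (⌊w i * x⌋₊ : ℝ)) ^ 2 ≤ d * ∑ i ∈ S, ∑ j ∈ S,
      if R i j then (⌊w i * x⌋₊ : ℝ) * (⌊w j * x⌋₊ : ℝ) else 0 := by
    have := (Nat.cast_le (α := ℝ)).2 h3
    push_cast at this
    exact this
  have e1 : (∑ i ∈ S, (⌊w i * x⌋₊ : ℝ) / x) ^ 2 = (∑ i ∈ S, (⌊w i * x⌋₊ : ℝ)) ^ 2 / x ^ 2 := by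
    rw [← Finset.sum_div, div_pow]
  have e2 : (d : ℝ) * ∑ i ∈ S, ∑ j ∈ S,
      (if R i j then ((⌊w i * x⌋₊ : ℝ) / x) * ((⌊w j * x⌋₊ : ℝ) / x) else 0) =
      (d * ∑ i ∈ S, ∑ j ∈ S, if R i j then (⌊w i * x⌋₊ : ℝ) * (⌊w j * x⌋₊ : ℝ) else 0) / x ^ 2 := by
    rw [mul_div_assoc, Finset.sum_div]
    congr 1
    refine Finset.sum_congr rfl fun i _ => ?_
    rw [Finset.sum_div]
    refine Finset.sum_congr rfl fun j _ => ?_
    split_ifs
    · rw [div_mul_div_comm, sq]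
    · rw [zero_div]
  rw [e1, e2]
  exact div_le_div_of_nonneg_right h4 (by positivity)

end Pool.Agent.NH19.BLA
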